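import Pool.Agent.Lib.MP_d0f9e0_co.Ab.Sys

/-!
# Second order jets of real solutions
-/

namespace Pool.Agent.SicCi

open Finset Pool.Agent.SicAb

variable {A : Type} [AddCommGroup A] [Fintype A] [DecidableEq A]

/-- The logarithmic derivative `<x, D_h z> / <x, D_h x>`. -/
noncomputable def ja {K : Type*} [Field K] [StarRing K] (ι : Bz →+* K) (x z : A → K)
    (h : PS A) : K :=
  ov ι (fun r => star (x r)) z h / ov ι (fun r => star (x r)) x h

/-- `x` is a fiducial, `z` a unit tangent vector orthogonal to `x` which satisfies the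
second order condition. -/
structure Jet {K : Type*} [Field K] [StarRing K] (ι : Bz →+* K) (x z : A → K) : Prop where
  sol : IsSol ι (fun r => star (x r)) x
  perp : ov ι (fun r => star (x r)) z 0 = 0
  unit : ov ι (fun r => star (z r)) z 0 = 1
  tan : Tangent ι (fun r => star (x r)) x (fun r => star (z r)) z
  sec : ∑ h, (ja ι x z h ^ 2 + star (ja ι x z h) ^ 2) * (ja ι x z h * star (ja ι x z h)) =
    2 * (Fintype.card A : K) * ((Fintype.card A : K) + 1)

end Pool.Agent.SicCi
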