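import Pool.Agent.Lib.MP_d0f9e0_co.Ab.Rigid
import Pool.Agent.Lib.MP_d0f9e0_co.Ci.JetDef

/-!
# The core of the local analysis at a real solution

`x` is a fiducial vector over a field with a positive definite star operation, `z` a normalised
tangent vector orthogonal to `x` which satisfies one second order condition. Then the function
`a h = <x, D_h z> / <x, D_h x>` is real or equal to `±i` at every point, and the set `T` of the
points with `a h = -i` is a parabolic set.
-/

set_option autoImplicit false
set_option linter.unusedSectionVars false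

namespace Pool.Agent.SicCi

open Finset Pool.Agent.SicAb

variable {A : Type} [AddCommGroup A] [Fintype A] [DecidableEq A]
variable {K : Type*} [Field K] [StarRing K]

section starG

theorem star_pr (hpos : PosStar K) (ι : Bz →+* K) (k h : PS A) :
    star (ι (pr k h)) = ι (pr (-k) h) := by
  unfold pr
  rw [map_mul, star_mul', star_ch hpos, star_ch hpos, map_mul]
  congr 2

theorem star_G (hpos : PosStar K) (ι : Bz →+* K) (u : PS A → K) (k : PS A) :
    star (G ι u k) = G ι (fun h => star (u h)) (-k) := by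
  unfold G
  rw [star_sum]
  exact Finset.sum_congr rfl fun h _ => by rw [star_mul', star_pr hpos]

theorem G_sub (ι : Bz →+* K) (g g' : PS A → K) (k : PS A) :
    G ι (fun h => g h - g' h) k = G ι g k - G ι g' k := by
  unfold G
  rw [← Finset.sum_sub_distrib]
  exact Finset.sum_congr rfl fun h _ => by ring

theorem G_neg' (ι : Bz →+* K) (g : PS A → K) (k : PS A) :
    G ι (fun h => - g h) k = - G ι g k := by
  unfold G
  rw [← Finset.sum_neg_distrib]
  exact Finset.sum_congr rfl fun h _ => by ring

theorem eps_neg_c (h : PS A) : eps A K (-h) = eps A K h := by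
  unfold eps
  simp only [neg_eq_zero]

theorem eps_zero : eps A K 0 = (Fintype.card A : K) + 1 := if_pos rfl

theorem eps_of_ne {h : PS A} (h0 : h ≠ 0) : eps A K h = 1 := if_neg h0

theorem star_nat (n : ℕ) : star (n : K) = n := star_natCast n

theorem star_eps (h : PS A) : star (eps A K h) = eps A K h := by
  unfold eps
  split_ifs
  · rw [star_add, star_natCast, star_one]
  · rw [star_one]

/-- The number of points of phase space. -/
theorem sum_one (ι : Bz →+* K) : ∑ _h : PS A, (1 : K) = (Fintype.card A : K) ^ 2 := by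
  have h1 := congrArg ι (sum_pr (0 : PS A))
  rw [if_pos rfl, map_sum, map_pow, map_natCast] at h1
  rw [← h1]
  exact Finset.sum_congr rfl fun h _ => by rw [pr_zero_left, map_one]

end starG

/-- The functions attached to a jet. -/
structure Fns (ι : Bz →+* K) (a m g r : PS A → K) : Prop where
  a_zero : a 0 = 0
  a_neg : ∀ h, a (-h) = - a h
  m_def : ∀ h, m h = a h * star (a h)
  g_def : ∀ h, g h = eps A K h * r h
  r_neg : ∀ h, r (-h) = r h
  r_star : ∀ h, star (r h) = r h
  r_zero : r 0 = 1
  Ga : ∀ k, G ι a k = - ((Fintype.card A : K) * a k)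
  Gaa : ∀ k, G ι (fun h => a h ^ 2) k = (Fintype.card A : K) * a k ^ 2
  Gg : ∀ k, G ι g k = (Fintype.card A : K) * m k
  Gga : ∀ k, G ι (fun h => g h * a h) k = (Fintype.card A : K) * (g k * a k)
  Ggr : ∀ k, G ι (fun h => g h * r h) k = (Fintype.card A : K) * (g k * r k)
  sec : ∑ h : PS A, (a h ^ 2 + star (a h) ^ 2) * m h =
    2 * ((Fintype.card A : K) * ((Fintype.card A : K) + 1))

section fns

variable {ι : Bz →+* K} {x z : A → K}

/-- The overlap of `z` and `x` in terms of `a`. -/
theorem Jet.ov_zx (hpos : PosStar K) (hJ : Jet ι x z) (a : PS A → K)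
    (ha : ∀ h, a h = ov ι (fun r => star (x r)) z h / ov ι (fun r => star (x r)) x h)
    (han : ∀ h, a (-h) = - a h) (h : PS A) :
    ov ι (fun r => star (z r)) x h = - star (a h) * ov ι (fun r => star (x r)) x h := by
  have hf0 := ov_ne_zero ι hpos hJ.sol
  have h1 : ov ι (fun r => star (x r)) z (-h) = a (-h) * ov ι (fun r => star (x r)) x (-h) := by
    rw [ha, div_mul_cancel₀ _ (hf0 _)]
  have h2 := congrArg star h1
  rw [star_ov hpos, star_mul', star_ov hpos, neg_neg, han, star_neg] at h2
  have hxx : (fun r => star (star (x r))) = x := funext fun r => star_star (x r)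
  rw [hxx] at h2
  exact h2

theorem Jet.fns (hpos : PosStar K) (hJ : Jet ι x z) (a m g r : PS A → K)
    (ha : ∀ h, a h = ov ι (fun r => star (x r)) z h / ov ι (fun r => star (x r)) x h)
    (hm : ∀ h, m h = a h * star (a h))
    (hr : ∀ h, r h = ov ι (fun r => star (z r)) z h / ov ι (fun r => star (x r)) x h)
    (hg : ∀ h, g h = eps A K h * r h) : Fns ι a m g r := by
  set y : A → K := fun r => star (x r) with hy
  set w : A → K := fun r => star (z r) with hw
  set f : PS A → K := fun h => ov ι y x h with hf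
  have hf0 : ∀ h, f h ≠ 0 := fun h => ov_ne_zero ι hpos hJ.sol h
  set N : K := (Fintype.card A : K) with hN
  have hN0 : N ≠ 0 := cast_ne_zero_of_pos hpos Fintype.card_ne_zero
  have hN1 : N + 1 ≠ 0 := by
    have := cast_ne_zero_of_pos hpos (Nat.succ_ne_zero (Fintype.card A))
    push_cast at this
    exact this
  have hff : ∀ h, (N + 1) * (f h * f (-h)) = eps A K h := hJ.sol.mul
  have hxz : ∀ h, ov ι y z h = a h * f h := fun h => by
    rw [ha, div_mul_cancel₀ _ (hf0 _)]
  have hzz : ∀ h, ov ι w z h = r h * f h := fun h => by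
    rw [hr, div_mul_cancel₀ _ (hf0 _)]
  have ha0 : a 0 = 0 := by rw [ha, hJ.perp, zero_div]
  have han : ∀ h, a (-h) = - a h := by
    intro h
    have h1 := rigid_core ι hpos hJ.sol z hJ.perp hJ.tan h
    change ov ι y z h * f (-h) + ov ι y z (-h) * f h = 0 at h1
    rw [hxz, hxz] at h1
    have h2 : (f h * f (-h)) * (a (-h) + a h) = 0 := by linear_combination h1
    exact eq_neg_of_add_eq_zero_left
      ((mul_eq_zero.mp h2).resolve_left (mul_ne_zero (hf0 h) (hf0 _)))
  have hzx : ∀ h, ov ι w x h = - star (a h) * f h := Jet.ov_zx hpos hJ a ha han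
  have heps0 : ∀ h, eps A K h ≠ 0 := eps_ne_zero hpos
  have hae : ∀ h, eps A K h * a h = a h := by
    intro h
    by_cases h1 : h = 0
    · rw [h1, ha0, mul_zero]
    · rw [eps_of_ne h1, one_mul]
  -- duality in normalised form
  have hdual : ∀ (y₁ x₁ y₂ x₂ : A → K) (p q s t : PS A → K),
      (∀ h, ov ι y₁ x₁ h = p h * f h) → (∀ h, ov ι y₂ x₂ h = q h * f h) →
      (∀ h, ov ι y₁ x₂ h = s h * f h) → (∀ h, ov ι y₂ x₁ h = t h * f h) →
      ∀ k, G ι (fun h => eps A K h * (p h * q (-h))) k =
        N * (eps A K k * (s k * t (-k))) := by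
    intro y₁ x₁ y₂ x₂ p q s t hp hq hs ht k
    have h1 := duality ι y₁ x₁ y₂ x₂ k
    have h2 : (fun h => ov ι y₁ x₁ h * ov ι y₂ x₂ (-h)) =
        fun h => (N + 1)⁻¹ * (eps A K h * (p h * q (-h))) := by
      funext h
      rw [hp, hq, ← hff h]
      field_simp
    rw [h2, G_smul, hs, ht] at h1
    have h3 : N * (s k * f k * (t (-k) * f (-k))) =
        (N + 1)⁻¹ * (N * (eps A K k * (s k * t (-k)))) := by
      rw [← hff k]
      field_simp
    rw [h3] at h1
    exact mul_left_cancel₀ (inv_ne_zero hN1) h1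
  have hxx : ∀ h, ov ι y x h = (fun _ => (1 : K)) h * f h := fun h => (one_mul _).symm
  -- `r` is even and real
  have hrstar : ∀ h, star (r h) = r (-h) := by
    intro h
    have h1 := congrArg star (hzz h)
    rw [star_ov hpos, star_mul'] at h1
    have h2 : star (f h) = f (-h) := by
      change star (ov ι y x h) = ov ι y x (-h)
      rw [star_ov hpos]
      congr 1
      funext r
      exact star_star (x r)
    have h3 : (fun r => star (w r)) = z := funext fun r => star_star (z r)
    rw [h2, h3] at h1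
    change ov ι w z (-h) = _ at h1
    rw [hzz] at h1
    exact (mul_right_cancel₀ (hf0 _) h1).symm
  have hGg : ∀ k, G ι g k = N * m k := by
    intro k
    have h1 := hdual w z y x r (fun _ => 1) (fun h => - star (a h)) a hzz hxx hzx hxz k
    have h2 : (fun h => eps A K h * (r h * (fun _ => (1 : K)) (-h))) = g := by
      funext h
      rw [hg]
      ring
    rw [h2] at h1
    rw [h1, hm, han]
    have h3 := hae k
    linear_combination (N * star (a k)) * h3
  have hGm : ∀ k, G ι m k = N * g k := by
    intro k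
    have h1 := G_G ι g k
    have h2 : G ι g = fun k => N * m k := funext hGg
    rw [h2, G_smul] at h1
    apply mul_left_cancel₀ hN0
    rw [h1]
    ring
  have hgn : ∀ h, g (-h) = g h := by
    intro h
    have h1 := G_neg_arg ι m h
    have h2 : (fun h => m (-h)) = m := by
      funext h
      rw [hm, hm, han, star_neg]
      ring
    rw [h2, hGm, hGm] at h1
    exact (mul_left_cancel₀ hN0 h1).symm
  have hrn : ∀ h, r (-h) = r h := by
    intro h
    have h1 := hgn h
    rw [hg, hg, eps_neg_c] at h1
    exact mul_left_cancel₀ (heps0 h) h1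
  refine ⟨ha0, han, hm, hg, hrn, fun h => (hrstar h).trans (hrn h), ?_, ?_, ?_, hGg, ?_, ?_, ?_⟩
  · rw [hr, hJ.unit, hJ.sol.zero, div_one]
  · intro k
    have h1 := hdual y z y x a (fun _ => 1) (fun _ => 1) a hxz hxx hxx hxz k
    have h2 : (fun h => eps A K h * (a h * (fun _ => (1 : K)) (-h))) = a := by
      funext h
      rw [mul_one, hae]
    rw [h2] at h1
    rw [h1, han]
    have h3 := hae k
    linear_combination (-N) * h3
  · intro k
    have h1 := hdual y z y z a a a a hxz hxz hxz hxz k
    have h2 : (fun h => eps A K h * (a h * a (-h))) = fun h => - (a h ^ 2) := by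
      funext h
      rw [han]
      linear_combination (- a h) * hae h
    rw [h2, G_neg', han] at h1
    have h3 := hae k
    linear_combination (-1 : K) * h1 + (N * a k) * h3
  · intro k
    have h1 := hdual w z y z r a r a hzz hxz hzz hxz k
    have h2 : (fun h => eps A K h * (r h * a (-h))) = fun h => - (g h * a h) := by
      funext h
      rw [han, hg]
      ring
    rw [h2, G_neg', han] at h1
    rw [hg]
    linear_combination (-1 : K) * h1
  · intro k
    have h1 := hdual w z w z r r r r hzz hzz hzz hzz k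
    have h2 : (fun h => eps A K h * (r h * r (-h))) = fun h => g h * r h := by
      funext h
      rw [hrn, hg]
      ring
    rw [h2, hrn] at h1
    rw [h1, hg]
    ring
  · have h1 := hJ.sec
    rw [mul_assoc] at h1
    rw [← h1]
    apply Finset.sum_congr rfl
    intro h _
    rw [hm, ha]
    rfl

end fns


section sums

variable {ι : Bz →+* K} {a m g r : PS A → K}

theorem sum_of_G (u : PS A → K) (c : K) (v : PS A → K) (h : ∀ k, G ι u k = c * v k) :
    ∑ h, u h = c * v 0 := by
  rw [← G_zero_apply ι, h]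

theorem nat_ne (hpos : PosStar K) : (Fintype.card A : K) ≠ 0 :=
  cast_ne_zero_of_pos hpos Fintype.card_ne_zero

theorem nat_succ_ne (hpos : PosStar K) : (Fintype.card A : K) + 1 ≠ 0 := by
  have := cast_ne_zero_of_pos hpos (Nat.succ_ne_zero (Fintype.card A))
  push_cast at this
  exact this

theorem two_ne_c (hpos : PosStar K) : (2 : K) ≠ 0 := by
  have := cast_ne_zero_of_pos hpos (n := 2) (by norm_num)
  exact_mod_cast this

/-- Parseval for two functions which are mapped to multiples of functions. -/
theorem pars (hpos : PosStar K) (u v u' v' : PS A → K)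
    (hu : ∀ k, G ι u k = (Fintype.card A : K) * u' k)
    (hv : ∀ k, G ι v k = (Fintype.card A : K) * v' k) :
    ∑ k, u' k * v' (-k) = ∑ k, u k * v k := by
  have h1 := parseval ι u v
  have h2 : ∀ k, G ι u k * G ι v (-k) = (Fintype.card A : K) ^ 2 * (u' k * v' (-k)) := by
    intro k
    rw [hu, hv]
    ring
  rw [Finset.sum_congr rfl fun k _ => h2 k, ← Finset.mul_sum] at h1
  exact mul_left_cancel₀ (pow_ne_zero 2 (nat_ne hpos)) h1

theorem Fns.m_neg (hF : Fns ι a m g r) (h : PS A) : m (-h) = m h := by
  rw [hF.m_def, hF.m_def, hF.a_neg, star_neg]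
  ring

theorem Fns.m_star (hF : Fns ι a m g r) (h : PS A) : star (m h) = m h := by
  rw [hF.m_def, star_mul', star_star, mul_comm]

theorem Fns.m_zero (hF : Fns ι a m g r) : m 0 = 0 := by
  rw [hF.m_def, hF.a_zero, zero_mul]

theorem Fns.g_neg (hF : Fns ι a m g r) (h : PS A) : g (-h) = g h := by
  rw [hF.g_def, hF.g_def, hF.r_neg, eps_neg_c]

theorem Fns.g_star (hF : Fns ι a m g r) (h : PS A) : star (g h) = g h := by
  rw [hF.g_def, star_mul', hF.r_star, star_eps]

theorem Fns.g_zero (hF : Fns ι a m g r) : g 0 = (Fintype.card A : K) + 1 := by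
  rw [hF.g_def, hF.r_zero, eps_zero, mul_one]

theorem Fns.g_of_ne (hF : Fns ι a m g r) {h : PS A} (h0 : h ≠ 0) : g h = r h := by
  rw [hF.g_def, eps_of_ne h0, one_mul]

theorem Fns.Gm (hpos : PosStar K) (hF : Fns ι a m g r) (k : PS A) :
    G ι m k = (Fintype.card A : K) * g k := by
  have h1 := G_G ι g k
  have h2 : G ι g = fun k => (Fintype.card A : K) * m k := funext hF.Gg
  rw [h2, G_smul] at h1
  apply mul_left_cancel₀ (nat_ne (A := A) hpos)
  rw [h1]
  ring

theorem Fns.Gsa (hpos : PosStar K) (hF : Fns ι a m g r) (k : PS A) :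
    G ι (fun h => star (a h)) k = (Fintype.card A : K) * star (a k) := by
  have h1 := star_G hpos ι a (-k)
  rw [neg_neg] at h1
  rw [← h1, hF.Ga, star_neg, star_mul', star_natCast, hF.a_neg, star_neg]
  ring

theorem Fns.Gsaa (hpos : PosStar K) (hF : Fns ι a m g r) (k : PS A) :
    G ι (fun h => star (a h) ^ 2) k = (Fintype.card A : K) * star (a k) ^ 2 := by
  have h1 := star_G hpos ι (fun h => a h ^ 2) (-k)
  rw [neg_neg] at h1
  have h2 : (fun h => star (a h ^ 2)) = fun h => star (a h) ^ 2 := by
    funext h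
    rw [star_pow]
  rw [h2] at h1
  rw [← h1, hF.Gaa, star_mul', star_natCast, hF.a_neg, star_pow, star_neg]
  ring

theorem Fns.sum_m (hpos : PosStar K) (hF : Fns ι a m g r) :
    ∑ h, m h = (Fintype.card A : K) * ((Fintype.card A : K) + 1) := by
  rw [sum_of_G m _ g (hF.Gm hpos), hF.g_zero]

theorem Fns.sum_g (hF : Fns ι a m g r) : ∑ h, g h = 0 := by
  rw [sum_of_G g _ m hF.Gg, hF.m_zero, mul_zero]

theorem Fns.sum_aa (hF : Fns ι a m g r) : ∑ h, a h ^ 2 = 0 := by
  rw [sum_of_G (fun h => a h ^ 2) _ (fun h => a h ^ 2) hF.Gaa]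
  simp [hF.a_zero]

theorem Fns.sum_saa (hpos : PosStar K) (hF : Fns ι a m g r) : ∑ h, star (a h) ^ 2 = 0 := by
  rw [sum_of_G (fun h => star (a h) ^ 2) _ (fun h => star (a h) ^ 2) (hF.Gsaa hpos)]
  simp [hF.a_zero]

theorem Fns.sum_gg (hF : Fns ι a m g r) :
    ∑ h, g h ^ 2 = 2 * ((Fintype.card A : K) * ((Fintype.card A : K) + 1)) := by
  have h1 : ∑ h, g h * r h = (Fintype.card A : K) * ((Fintype.card A : K) + 1) := by
    rw [sum_of_G (fun h => g h * r h) _ (fun h => g h * r h) hF.Ggr]
    simp only [hF.g_zero, hF.r_zero, mul_one]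
  have h2 : ∀ h, g h ^ 2 = g h * r h +
      (if h = 0 then (Fintype.card A : K) * ((Fintype.card A : K) + 1) else 0) := by
    intro h
    split_ifs with h0
    · rw [h0, hF.g_zero, hF.r_zero]
      ring
    · rw [add_zero, sq]
      nth_rewrite 2 [hF.g_of_ne h0]
      rfl
  rw [Finset.sum_congr rfl fun h _ => h2 h, Finset.sum_add_distrib, h1,
    Finset.sum_ite_eq' Finset.univ (0 : PS A), if_pos (Finset.mem_univ _)]
  ring

theorem Fns.sum_mm (hpos : PosStar K) (hF : Fns ι a m g r) :
    ∑ h, m h ^ 2 = 2 * ((Fintype.card A : K) * ((Fintype.card A : K) + 1)) := by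
  have h1 := pars hpos m m g g (hF.Gm hpos) (hF.Gm hpos)
  rw [← hF.sum_gg]
  have h2 : ∀ k, g k * g (-k) = g k ^ 2 := fun k => by rw [hF.g_neg]; ring
  have h3 : ∀ k, m k * m k = m k ^ 2 := fun k => by ring
  rw [Finset.sum_congr rfl fun k _ => h2 k, Finset.sum_congr rfl fun k _ => h3 k] at h1
  exact h1.symm

theorem Fns.sum_gm (hpos : PosStar K) (hF : Fns ι a m g r) : ∑ h, g h * m h = 0 := by
  have h1 := pars hpos (fun h => g h * a h) (fun h => star (a h)) (fun h => g h * a h)
    (fun h => star (a h)) hF.Gga (hF.Gsa hpos)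
  have h2 : ∀ k, g k * a k * star (a (-k)) = - (g k * m k) := by
    intro k
    rw [hF.a_neg, star_neg, hF.m_def]
    ring
  have h3 : ∀ k, g k * a k * star (a k) = g k * m k := by
    intro k
    rw [hF.m_def]
    ring
  rw [Finset.sum_congr rfl fun k _ => h2 k, Finset.sum_congr rfl fun k _ => h3 k,
    Finset.sum_neg_distrib] at h1
  have h4 : 2 * ∑ h, g h * m h = 0 := by linear_combination (-1 : K) * h1
  exact (mul_eq_zero.mp h4).resolve_left (two_ne_c hpos)

theorem Fns.sum_aag (hpos : PosStar K) (hF : Fns ι a m g r) :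
    ∑ h, a h ^ 2 * g h = ∑ h, a h ^ 2 * m h := by
  have h1 := pars hpos (fun h => a h ^ 2) m (fun h => a h ^ 2) g hF.Gaa (hF.Gm hpos)
  rw [← h1]
  exact Finset.sum_congr rfl fun k _ => by rw [hF.g_neg]

theorem Fns.sum_saag (hpos : PosStar K) (hF : Fns ι a m g r) :
    ∑ h, star (a h) ^ 2 * g h = ∑ h, star (a h) ^ 2 * m h := by
  have h1 := pars hpos (fun h => star (a h) ^ 2) m (fun h => star (a h) ^ 2) g
    (hF.Gsaa hpos) (hF.Gm hpos)
  rw [← h1]
  exact Finset.sum_congr rfl fun k _ => by rw [hF.g_neg]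

theorem Fns.sum_psi (hpos : PosStar K) (hF : Fns ι a m g r) :
    ∑ h : PS A, (2 - 2 * g h - 2 * m h + (a h ^ 2 + star (a h) ^ 2)) ^ 2 +
      ∑ h : PS A, - (a h ^ 2 - star (a h) ^ 2) ^ 2 = 4 * (Fintype.card A : K) ^ 2 := by
  rw [← Finset.sum_add_distrib]
  have e1 : ∀ h : PS A, (2 - 2 * g h - 2 * m h + (a h ^ 2 + star (a h) ^ 2)) ^ 2 +
      - (a h ^ 2 - star (a h) ^ 2) ^ 2 =
      4 * 1 + 4 * g h ^ 2 + 8 * m h ^ 2 - 8 * g h - 8 * m h + 4 * a h ^ 2 +
        4 * star (a h) ^ 2 + 8 * (g h * m h) - 4 * (a h ^ 2 * g h) -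
        4 * (star (a h) ^ 2 * g h) - 4 * ((a h ^ 2 + star (a h) ^ 2) * m h) := by
    intro h
    have h1 : a h ^ 2 * star (a h) ^ 2 = m h ^ 2 := by
      rw [hF.m_def]
      ring
    linear_combination 4 * h1
  rw [Finset.sum_congr rfl fun h _ => e1 h]
  simp only [Finset.sum_sub_distrib, Finset.sum_add_distrib, ← Finset.mul_sum]
  rw [sum_one ι, hF.sum_gg, hF.sum_mm hpos, hF.sum_g, hF.sum_m hpos, hF.sum_aa,
    hF.sum_saa hpos, hF.sum_gm hpos, hF.sum_aag hpos, hF.sum_saag hpos, hF.sec]
  have h2 := hF.sec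
  have h3 : ∀ h, (a h ^ 2 + star (a h) ^ 2) * m h = a h ^ 2 * m h + star (a h) ^ 2 * m h :=
    fun h => by ring
  rw [Finset.sum_congr rfl fun h _ => h3 h, Finset.sum_add_distrib] at h2
  linear_combination (-4 : K) * h2

/-- The equality case. -/
theorem Fns.eqs (hpos : PosStar K) (hF : Fns ι a m g r) :
    (∀ h, a h ^ 2 = star (a h) ^ 2) ∧
      ∀ h, h ≠ 0 → 2 - 2 * g h - 2 * m h + (a h ^ 2 + star (a h) ^ 2) = 0 := by
  classical
  set P : PS A → K := fun h => 2 - 2 * g h - 2 * m h + (a h ^ 2 + star (a h) ^ 2) with hP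
  have hPs : ∀ h, star (P h) = P h := by
    intro h
    simp only [hP]
    rw [star_add, star_sub, star_sub, star_mul', star_mul', hF.g_star, hF.m_star, star_add,
      star_pow, star_pow, star_star]
    have h2 : star (2 : K) = 2 := by
      have := star_natCast (R := K) 2
      exact_mod_cast this
    rw [h2]
    ring
  have hP0 : P 0 = - (2 * (Fintype.card A : K)) := by
    simp only [hP]
    rw [hF.g_zero, hF.m_zero, hF.a_zero, star_zero]
    ring
  have h1 := hF.sum_psi hpos
  have h2 := hpos (PS A ⊕ PS A) Finset.univ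
    (Sum.elim (fun h => if h = 0 then 0 else P h) (fun h => a h ^ 2 - star (a h) ^ 2)) (by
      rw [Fintype.sum_sum_type]
      simp only [Sum.elim_inl, Sum.elim_inr]
      have e1 : ∀ h : PS A, star (if h = 0 then (0 : K) else P h) * (if h = 0 then 0 else P h) =
          P h ^ 2 - (if h = 0 then 4 * (Fintype.card A : K) ^ 2 else 0) := by
        intro h
        split_ifs with h0
        · rw [h0, hP0, star_zero]
          ring
        · rw [hPs]
          ring
      have e2 : ∀ h : PS A, star (a h ^ 2 - star (a h) ^ 2) * (a h ^ 2 - star (a h) ^ 2) =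
          - (a h ^ 2 - star (a h) ^ 2) ^ 2 := by
        intro h
        rw [star_sub, star_pow, star_pow, star_star]
        ring
      rw [Finset.sum_congr rfl fun h _ => e1 h, Finset.sum_congr rfl fun h _ => e2 h,
        Finset.sum_sub_distrib, Finset.sum_ite_eq' Finset.univ (0 : PS A),
        if_pos (Finset.mem_univ _)]
      simp only [hP]
      linear_combination h1)
  constructor
  · intro h
    have h3 := h2 (Sum.inr h) (Finset.mem_univ _)
    simp only [Sum.elim_inr] at h3
    exact sub_eq_zero.mp h3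
  · intro h h0
    have h3 := h2 (Sum.inl h) (Finset.mem_univ _)
    simp only [Sum.elim_inl, if_neg h0] at h3
    exact h3

/-- `a` is real or `a = ±i`. -/
theorem Fns.dich (hpos : PosStar K) (hF : Fns ι a m g r) (h : PS A) :
    (a h ^ 2 + 1) * (a h - star (a h)) = 0 := by
  obtain ⟨he, hp⟩ := hF.eqs hpos
  set N : K := (Fintype.card A : K) with hN
  have hN0 : N ≠ 0 := nat_ne hpos
  set w : PS A → K := fun h => a h ^ 2 * (a h - star (a h)) with hw
  have hga : ∀ h, g h * a h = a h + w h := by
    intro h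
    by_cases h0 : h = 0
    · simp only [hw, h0, hF.a_zero]
      simp
    · have h1 := hp h h0
      have h2 := he h
      have h3 : 2 * (g h * a h) = 2 * (a h + w h) := by
        simp only [hw]
        rw [hF.m_def] at h1
        linear_combination (- a h) * h1 - (a h) * h2
      exact mul_left_cancel₀ (two_ne_c hpos) h3
  have hwn : ∀ h, w (-h) = - w h := by
    intro h
    simp only [hw]
    rw [hF.a_neg, star_neg]
    ring
  have hws : ∀ h, star (w h) = - w h := by
    intro h
    simp only [hw]
    rw [star_mul', star_pow, star_sub, star_star, ← he h]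
    ring
  have hGw : ∀ k, G ι w k = 2 * N * a k + N * w k := by
    intro k
    have h1 := hF.Gga k
    have h2 : (fun h => g h * a h) = fun h => a h + w h := funext hga
    rw [h2, G_add, hF.Ga, hga] at h1
    linear_combination h1
  have hGw2 : ∀ k, G ι w k = 2 * N * star (a k) - N * w k := by
    intro k
    have h1 := star_G hpos ι w (-k)
    rw [neg_neg] at h1
    have h2 : (fun h => star (w h)) = fun h => - w h := funext hws
    rw [h2, G_neg', hGw, star_add, star_mul', star_mul', star_mul', hwn, star_neg, hws,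
      hF.a_neg, star_neg] at h1
    have h3 : star (2 : K) = 2 := by
      have := star_natCast (R := K) 2
      exact_mod_cast this
    rw [h3, hN, star_natCast, ← hN] at h1
    linear_combination h1
  have h1 := hGw h
  rw [hGw2 h] at h1
  have h2 : (2 * N) * (w h + (a h - star (a h))) = 0 := by linear_combination (-1 : K) * h1
  have h3 := (mul_eq_zero.mp h2).resolve_left (mul_ne_zero (two_ne_c hpos) hN0)
  simp only [hw] at h3
  linear_combination h3

end sums

section conj

theorem conj_pr (k h : PS A) :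
    (starRingEnd ℂ) ((pr k h : Bz) : ℂ) = ((pr (-k) h : Bz) : ℂ) := by
  unfold pr
  rw [MulMemClass.coe_mul, MulMemClass.coe_mul, map_mul, ch_val, ch_val, ch_val, ch_val,
    ← AddChar.map_neg_eq_conj, ← AddChar.map_neg_eq_conj, neg_neg]
  congr 1
  change k.2 h.1 = (-k.2) (-h.1)
  rw [AddChar.neg_apply, neg_neg]

theorem conj_Dsum (T : Finset (PS A)) (k : PS A) :
    (starRingEnd ℂ) (Dsum T k) = Dsum T (-k) := by
  unfold Dsum
  rw [map_sum]
  exact Finset.sum_congr rfl fun h _ => conj_pr k h

/-- The character sum of `T` as an algebraic number. -/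
noncomputable def dz (T : Finset (PS A)) (k : PS A) : Bz := ∑ h ∈ T, pr k h

theorem dz_val (T : Finset (PS A)) (k : PS A) : ((dz T k : Bz) : ℂ) = Dsum T k := by
  unfold dz Dsum
  rw [AddSubmonoidClass.coe_finsetSum]

theorem dz_map (T : Finset (PS A)) (k : PS A) : algebraMap Bz ℂ (dz T k) = Dsum T k :=
  dz_val T k

end conj

section para

variable {ι : Bz →+* K} {a m g r : PS A → K} {I : K} {T : Finset (PS A)}

/-- The indicator function of `T`. -/
noncomputable def ind (K : Type*) [Field K] (T : Finset (PS A)) (h : PS A) : K :=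
  if h ∈ T then 1 else 0

theorem G_ind (ι : Bz →+* K) (T : Finset (PS A)) (k : PS A) : G ι (ind K T) k = ι (dz T k) := by
  unfold G dz ind
  rw [map_sum]
  simp only [mul_ite, mul_one, mul_zero]
  rw [Finset.sum_ite_mem, Finset.univ_inter]

theorem G_delta (ι : Bz →+* K) (c : K) (k : PS A) :
    G ι (fun h => if h = 0 then c else 0) k = c := by
  unfold G
  have e1 : ∀ h : PS A, ι (pr k h) * (if h = 0 then c else 0) = if h = 0 then c else 0 := by
    intro h
    split_ifs with h0
    · rw [h0, pr_zero_right, map_one, one_mul]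
    · rw [mul_zero]
  rw [Finset.sum_congr rfl fun h _ => e1 h, Finset.sum_ite_eq' Finset.univ (0 : PS A),
    if_pos (Finset.mem_univ _)]

theorem G_one (ι : Bz →+* K) (k : PS A) :
    G ι (fun _ => (1 : K)) k = if k = 0 then (Fintype.card A : K) ^ 2 else 0 := by
  unfold G
  simp only [mul_one]
  rw [← map_sum, sum_pr]
  split_ifs
  · rw [map_pow, map_natCast]
  · rw [map_zero]

/-- The hypotheses on `T`. -/
structure Tri (I : K) (a : PS A → K) (T : Finset (PS A)) : Prop where
  sq : I * I = -1
  star_I : star I = -I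
  mem : ∀ h, h ∈ T ↔ a h = -I

theorem Tri.ne (hpos : PosStar K) (hT : Tri I a T) : I ≠ -I := by
  intro h
  have h1 : 2 * I = 0 := by linear_combination h
  have h2 := (mul_eq_zero.mp h1).resolve_left (two_ne_c hpos)
  have h3 := hT.sq
  rw [h2, mul_zero] at h3
  exact one_ne_zero (neg_eq_zero.mp h3.symm)

theorem Tri.I_ne (hT : Tri I a T) : I ≠ 0 := by
  intro h
  have h3 := hT.sq
  rw [h, mul_zero] at h3
  exact one_ne_zero (neg_eq_zero.mp h3.symm)

theorem Tri.neg_mem (hF : Fns ι a m g r) (hT : Tri I a T) (h : PS A) :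
    -h ∈ T ↔ a h = I := by
  rw [hT.mem, hF.a_neg, neg_inj]

theorem Tri.cases (hpos : PosStar K) (hF : Fns ι a m g r) (hT : Tri I a T) (h : PS A) :
    (h ∈ T ∧ -h ∉ T ∧ a h = -I ∧ star (a h) = I) ∨
      (h ∉ T ∧ -h ∈ T ∧ a h = I ∧ star (a h) = -I) ∨
      (h ∉ T ∧ -h ∉ T ∧ star (a h) = a h) := by
  have hne := hT.ne hpos
  have h1 := hF.dich hpos h
  rcases mul_eq_zero.mp h1 with h2 | h2
  · have h3 : (a h - I) * (a h + I) = 0 := by linear_combination h2 - hT.sq
    rcases mul_eq_zero.mp h3 with h4 | h4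
    · have h5 : a h = I := sub_eq_zero.mp h4
      right; left
      refine ⟨?_, (hT.neg_mem hF h).mpr h5, h5, by rw [h5, hT.star_I]⟩
      rw [hT.mem, h5]
      exact hne
    · have h5 : a h = -I := eq_neg_of_add_eq_zero_left h4
      left
      refine ⟨(hT.mem h).mpr h5, ?_, h5, by rw [h5, star_neg, hT.star_I, neg_neg]⟩
      rw [hT.neg_mem hF, h5]
      exact hne.symm
  · have h3 : star (a h) = a h := (sub_eq_zero.mp h2).symm
    right; right
    refine ⟨?_, ?_, h3⟩
    · rw [hT.mem]
      intro h4
      rw [h4, star_neg, hT.star_I, neg_neg] at h3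
      exact hne h3
    · rw [hT.neg_mem hF]
      intro h4
      rw [h4, hT.star_I] at h3
      exact hne h3.symm

theorem Tri.zero_notMem (_hpos : PosStar K) (hF : Fns ι a m g r) (hT : Tri I a T) :
    (0 : PS A) ∉ T := by
  rw [hT.mem, hF.a_zero]
  intro h
  exact hT.I_ne (neg_eq_zero.mp h.symm)

theorem Tri.im (hpos : PosStar K) (hF : Fns ι a m g r) (hT : Tri I a T) (h : PS A) :
    a h - star (a h) = (-2 * I) * (ind K T h - ind K T (-h)) := by
  unfold ind
  rcases hT.cases hpos hF h with ⟨h1, h2, h3, h4⟩ | ⟨h1, h2, h3, h4⟩ | ⟨h1, h2, h3⟩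
  · rw [if_pos h1, if_neg h2, h4, h3]; ring
  · rw [if_neg h1, if_pos h2, h4, h3]; ring
  · rw [if_neg h1, if_neg h2, h3]; ring

theorem Tri.re (hpos : PosStar K) (hF : Fns ι a m g r) (hT : Tri I a T) (k : PS A) :
    (Fintype.card A : K) * (a k + star (a k)) = 2 * I * (ι (dz T k) - ι (dz T (-k))) := by
  have h1 : G ι (fun h => a h - star (a h)) k =
      G ι (fun h => (-2 * I) * (ind K T h - ind K T (-h))) k := by
    congr 1
    funext h
    exact hT.im hpos hF h
  rw [G_sub, hF.Ga, hF.Gsa hpos, G_smul, G_sub, G_neg_arg ι (ind K T), G_ind, G_ind] at h1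
  linear_combination (-1 : K) * h1

theorem Tri.g_eq (hpos : PosStar K) (hF : Fns ι a m g r) (hT : Tri I a T) (h : PS A) :
    g h = (1 + (if h = 0 then (Fintype.card A : K) else 0)) - 2 * (ind K T h + ind K T (-h)) := by
  obtain ⟨he, hp⟩ := hF.eqs hpos
  by_cases h0 : h = 0
  · have h1 := hT.zero_notMem hpos hF
    unfold ind
    rw [h0, neg_zero, if_pos rfl, if_neg h1, hF.g_zero]
    ring
  · rw [if_neg h0]
    have h5 := hp h h0
    rw [hF.m_def, ← he h] at h5
    apply mul_left_cancel₀ (two_ne_c hpos)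
    unfold ind
    have h6 := hT.sq
    rcases hT.cases hpos hF h with ⟨h1, h2, h3, h4⟩ | ⟨h1, h2, h3, h4⟩ | ⟨h1, h2, h3⟩
    · rw [if_pos h1, if_neg h2]
      rw [h4, h3] at h5
      linear_combination (-1 : K) * h5 + 4 * h6
    · rw [if_neg h1, if_pos h2]
      rw [h4, h3] at h5
      linear_combination (-1 : K) * h5 + 4 * h6
    · rw [if_neg h1, if_neg h2]
      rw [h3] at h5
      linear_combination (-1 : K) * h5

theorem Tri.m_eq (hpos : PosStar K) (hF : Fns ι a m g r) (hT : Tri I a T) (k : PS A) :
    (Fintype.card A : K) * m k = (if k = 0 then (Fintype.card A : K) ^ 2 else 0) +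
      (Fintype.card A : K) - 2 * (ι (dz T k) + ι (dz T (-k))) := by
  have h1 := hF.Gg k
  have h2 : g = fun h => ((fun _ => (1 : K)) h + (if h = 0 then (Fintype.card A : K) else 0)) -
      2 * (ind K T h + ind K T (-h)) := by
    funext h
    exact hT.g_eq hpos hF h
  rw [h2, G_sub, G_add ι (fun _ => (1 : K)), G_smul, G_add ι (ind K T), G_neg_arg ι (ind K T),
    G_ind, G_ind, G_one, G_delta] at h1
  exact h1.symm

theorem charZero_of_pos (hpos : PosStar K) : CharZero K :=
  charZero_of_inj_zero fun n hn => by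
    by_contra h
    exact cast_ne_zero_of_pos hpos h hn

theorem dz_zero (T : Finset (PS A)) : dz T 0 = T.card := by
  unfold dz
  simp

theorem Tri.card (hpos : PosStar K) (hF : Fns ι a m g r) (hT : Tri I a T) :
    4 * T.card = Fintype.card A * (Fintype.card A + 1) := by
  have h1 := hT.m_eq hpos hF 0
  rw [hF.m_zero, neg_zero, dz_zero, map_natCast, if_pos rfl] at h1
  have := charZero_of_pos hpos
  have h2 : ((4 * T.card : ℕ) : K) = ((Fintype.card A * (Fintype.card A + 1) : ℕ) : K) := by
    push_cast
    linear_combination h1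
  exact_mod_cast h2

theorem Tri.van (hpos : PosStar K) (hF : Fns ι a m g r) (hT : Tri I a T) {k : PS A}
    (hk : k ∈ T) : dz T k = 0 ∧ dz T (-k) = 0 := by
  have h0 : k ≠ 0 := fun h => hT.zero_notMem hpos hF (h ▸ hk)
  have h1 := hT.re hpos hF k
  have h2 := hT.m_eq hpos hF k
  have h3 : a k = -I := (hT.mem k).mp hk
  have h4 : star (a k) = I := by rw [h3, star_neg, hT.star_I, neg_neg]
  rw [hF.m_def] at h2
  rw [h4, h3, if_neg h0] at h2
  rw [h4, h3] at h1
  have h5 := hT.sq
  have h6 : (4 * I) * (ι (dz T k)) = 0 := by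
    linear_combination (-1 : K) * h1 + I * h2 + (Fintype.card A : K) * I * h5
  have h7 : (4 : K) ≠ 0 := by
    have := mul_ne_zero (two_ne_c hpos) (two_ne_c hpos)
    intro h
    apply this
    rw [← h]
    norm_num
  have h8 : ι (dz T k) = 0 := (mul_eq_zero.mp h6).resolve_left (mul_ne_zero h7 hT.I_ne)
  have h9 : ι (dz T (-k)) = 0 := by
    have h10 : (2 * I) * (ι (dz T k) - ι (dz T (-k))) = 0 := by linear_combination (-1 : K) * h1
    have h11 := (mul_eq_zero.mp h10).resolve_left (mul_ne_zero (two_ne_c hpos) hT.I_ne)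
    rw [h8, zero_sub, neg_eq_zero] at h11
    exact h11
  exact ⟨(map_eq_zero ι).mp h8, (map_eq_zero ι).mp h9⟩

theorem Tri.par (hpos : PosStar K) (hF : Fns ι a m g r) (hT : Tri I a T) {k : PS A}
    (h0 : k ≠ 0) (hk : k ∉ T) (hk' : -k ∉ T) :
    ((Fintype.card A : Bz) - dz T k - dz T (-k)) ^ 2 = 4 * dz T k * dz T (-k) := by
  apply ι.injective
  rw [map_pow, map_sub, map_sub, map_mul, map_mul, map_natCast, map_ofNat]
  have h1 := hT.re hpos hF k
  have h2 := hT.m_eq hpos hF k
  have h3 : star (a k) = a k := by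
    rcases hT.cases hpos hF k with ⟨h, _⟩ | ⟨_, h, _⟩ | ⟨_, _, h⟩
    · exact absurd h hk
    · exact absurd h hk'
    · exact h
  rw [hF.m_def, h3, if_neg h0] at h2
  rw [h3] at h1
  have h4 : (Fintype.card A : K) * a k = I * (ι (dz T k) - ι (dz T (-k))) := by
    apply mul_left_cancel₀ (two_ne_c hpos)
    linear_combination h1
  have h5 := hT.sq
  have h6 : ((Fintype.card A : K) * a k) ^ 2 = (I * (ι (dz T k) - ι (dz T (-k)))) ^ 2 := by
    rw [h4]
  linear_combination (-1 : K) * (Fintype.card A : K) * h2 + h6 +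
    (ι (dz T k) - ι (dz T (-k))) ^ 2 * h5

theorem Tri.isPara (hpos : PosStar K) (hF : Fns ι a m g r) (hT : Tri I a T) : IsPara T := by
  classical
  have hN : (0 : ℝ) < Fintype.card A := by exact_mod_cast Fintype.card_pos
  have hcard := hT.card hpos hF
  have hreal : ∀ k, k ≠ 0 → k ∉ T → -k ∉ T →
      2 * (‖Dsum T k‖ + (Dsum T k).re) = Fintype.card A := by
    intro k h0 hk hk'
    have h1 := hT.par hpos hF h0 hk hk'
    have h2 := congrArg (algebraMap Bz ℂ) h1
    rw [map_pow, map_sub, map_sub, map_mul, map_mul, map_natCast, map_ofNat, dz_map, dz_map,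
      ← conj_Dsum] at h2
    set z := Dsum T k with hz
    have h4 : ((Fintype.card A : ℂ) - z - (starRingEnd ℂ) z) = (((Fintype.card A : ℝ) - 2 * z.re : ℝ) : ℂ) := by
      apply Complex.ext
      · simp
        ring
      · simp
    have h5 : 4 * z * (starRingEnd ℂ) z = ((4 * ‖z‖ ^ 2 : ℝ) : ℂ) := by
      rw [mul_assoc, Complex.mul_conj, Complex.normSq_eq_norm_sq]
      push_cast
      ring
    rw [h4, h5] at h2
    have h6 : ((Fintype.card A : ℝ) - 2 * z.re) ^ 2 = 4 * ‖z‖ ^ 2 := by exact_mod_cast h2
    have h7 := Complex.abs_re_le_norm z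
    have h8 := norm_nonneg z
    have h9 : ((Fintype.card A : ℝ) - 2 * z.re - 2 * ‖z‖) *
        ((Fintype.card A : ℝ) - 2 * z.re + 2 * ‖z‖) = 0 := by linear_combination h6
    rcases mul_eq_zero.mp h9 with h10 | h10
    · linarith
    · have h11 := le_abs_self z.re
      linarith
  refine ⟨hcard, ?_, ?_, hreal, ?_⟩
  · intro k hk hk'
    rcases hT.cases hpos hF k with ⟨_, h, _⟩ | ⟨h, _, _⟩ | ⟨h, _, _⟩
    · exact h hk'
    · exact h hk
    · exact h hk
  · intro k hk
    rw [← dz_val, (hT.van hpos hF hk).1]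
    rfl
  · -- self-duality of the modulus
    intro k
    set nz : PS A → Bz := fun h => if h = 0 then (T.card : Bz) else
      if h ∈ T ∨ -h ∈ T then 0 else ((Fintype.card A : Bz) - dz T h - dz T (-h)) / 2 with hnz
    have h1 : ∀ h, ((nz h : Bz) : ℂ) = (‖Dsum T h‖ : ℂ) := by
      intro h
      simp only [hnz]
      split_ifs with h2 h3
      · rw [h2, ← dz_val, dz_zero]
        push_cast
        rw [Complex.norm_natCast]
        push_cast
        rfl
      · have h4 : Dsum T h = 0 := by
          rcases h3 with h3 | h3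
          · rw [← dz_val, (hT.van hpos hF h3).1]
            rfl
          · have h5 := (hT.van hpos hF h3).2
            rw [neg_neg] at h5
            rw [← dz_val, h5]
            rfl
        rw [h4, norm_zero]
        simp
      · push Not at h3
        have h4 := hreal h h2 h3.1 h3.2
        change algebraMap Bz ℂ (((Fintype.card A : Bz) - dz T h - dz T (-h)) / 2) = _
        rw [map_div₀, map_sub, map_sub, map_natCast, map_ofNat, dz_map, dz_map, ← conj_Dsum,
          div_eq_iff (by norm_num)]
        apply Complex.ext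
        · simp
          linarith
        · simp
    have h2 : ∀ h, 4 * ι (nz h) = (Fintype.card A : K) * (eps A K h + a h ^ 2) := by
      intro h
      simp only [hnz]
      split_ifs with h3 h4
      · rw [h3, hF.a_zero, eps_zero, map_natCast]
        have h5 : ((4 * T.card : ℕ) : K) = ((Fintype.card A * (Fintype.card A + 1) : ℕ) : K) := by
          rw [hcard]
        push_cast at h5
        linear_combination h5
      · rw [map_zero, eps_of_ne h3]
        have h5 : a h ^ 2 = -1 := by
          rcases h4 with h4 | h4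
          · rw [(hT.mem h).mp h4]
            linear_combination hT.sq
          · rw [(hT.neg_mem hF h).mp h4]
            linear_combination hT.sq
        rw [h5]
        ring
      · push Not at h4
        rw [eps_of_ne h3, map_div₀, map_sub, map_sub, map_natCast, map_ofNat]
        have h5 := hT.m_eq hpos hF h
        have h6 : star (a h) = a h := by
          rcases hT.cases hpos hF h with ⟨h, _⟩ | ⟨_, h, _⟩ | ⟨_, _, h⟩
          · exact absurd h h4.1
          · exact absurd h h4.2
          · exact h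
        rw [hF.m_def, h6, if_neg h3] at h5
        have h7 := two_ne_c hpos
        field_simp
        linear_combination (-2 : K) * h5
    have h3 : ∑ h, pr k h * nz h = (Fintype.card A : Bz) * nz k := by
      apply ι.injective
      rw [map_sum, map_mul, map_natCast]
      have h4 : (4 : K) ≠ 0 := by
        have := mul_ne_zero (two_ne_c hpos) (two_ne_c hpos)
        intro h
        apply this
        rw [← h]
        norm_num
      apply mul_left_cancel₀ h4
      have h5 : G ι (fun h => 4 * ι (nz h)) k =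
          G ι (fun h => (Fintype.card A : K) * (eps A K h + a h ^ 2)) k := by
        congr 1
        funext h
        exact h2 h
      rw [G_smul, G_smul, G_add ι (eps A K), G_eps, hF.Gaa] at h5
      have h6 : G ι (fun h => ι (nz h)) k = ∑ h, ι (pr k h * nz h) := by
        unfold G
        exact Finset.sum_congr rfl fun h _ => by rw [map_mul]
      rw [← h6, h5]
      linear_combination (-(Fintype.card A : K)) * h2 k
    have h4 := congrArg (algebraMap Bz ℂ) h3
    rw [map_sum, map_mul, map_natCast] at h4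
    simp only [map_mul] at h4
    have h5 : ∀ h, algebraMap Bz ℂ (nz h) = (‖Dsum T h‖ : ℂ) := h1
    simp only [h5] at h4
    exact h4

end para

end Pool.Agent.SicCi
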