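import Pool.Agent.Lib.MP_d0f9e0_co.Ab.Place

/-!
# Derivations commuting with a star operation

In a field `K` of characteristic zero with a star operation, a transcendental element `t` is
moved by some derivation of `K` commuting with the star operation.
-/

namespace Pool.Agent.SicCi

open Polynomial TensorProduct Pool.Agent.SicAb
open scoped IntermediateField.algebraAdjoinAdjoin

/-- A derivation of a ring extends to every formally etale algebra. -/
theorem extend_derivation {R A K : Type*} [CommRing R] [CommRing A] [CommRing K] [Algebra R A]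
    [Algebra R K] [Algebra A K] [IsScalarTower R A K] [Algebra.FormallyEtale A K]
    (d : Derivation R A K) :
    ∃ D : Derivation R K K, ∀ a, D (algebraMap A K a) = d a := by
  let e := KaehlerDifferential.tensorKaehlerEquivOfFormallyEtale R A K
  let l : K ⊗[A] Ω[A⁄R] →ₗ[K] K := LinearMap.liftBaseChange K d.liftKaehlerDifferential
  refine ⟨(l.comp e.symm.toLinearMap).compDer (KaehlerDifferential.D R K), ?_⟩
  intro a
  change l (e.symm (KaehlerDifferential.D R K (algebraMap A K a))) = d a
  rw [KaehlerDifferential.tensorKaehlerEquivOfFormallyEtale_symm_D_algebraMap]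
  change LinearMap.liftBaseChange K d.liftKaehlerDifferential (1 ⊗ₜ KaehlerDifferential.D R A a) = _
  rw [LinearMap.liftBaseChange_tmul, one_smul, Derivation.liftKaehlerDifferential_comp_D]

/-- The derivative with respect to a transcendental generator of `k[t]`. -/
theorem exists_poly_derivation {k K : Type*} [Field k] [Field K] [Algebra k K] {t : K}
    (ht : Transcendental k t) :
    ∃ d : Derivation k (Algebra.adjoin k ({t} : Set K)) K, d (gen (k := k) t) = 1 := by
  let A := Algebra.adjoin k ({t} : Set K)
  have hinj : Function.Injective (aeval (R := k) (gen (k := k) t)) := by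
    have h1 : Function.Injective (aeval (R := k) t) :=
      (transcendental_iff_injective).mp ht
    intro p q hpq
    apply h1
    have h2 := congrArg A.val hpq
    rw [← Polynomial.aeval_algHom_apply, ← Polynomial.aeval_algHom_apply] at h2
    exact h2
  let ψ : k[X] ≃ₐ[k] A := AlgEquiv.ofBijective (aeval (gen (k := k) t)) ⟨hinj, adjoin_surj t⟩
  have hψ : ∀ q, ((ψ q : A) : K) = aeval t q := by
    intro q
    exact (Polynomial.aeval_algHom_apply A.val (gen (k := k) t) q).symm
  refine ⟨Derivation.mk' ((aeval (R := k) t).toLinearMap ∘ₗ Polynomial.derivative ∘ₗ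
    ψ.symm.toLinearMap) ?_, ?_⟩
  · intro a b
    obtain ⟨p, rfl⟩ := ψ.surjective a
    obtain ⟨q, rfl⟩ := ψ.surjective b
    change aeval t (derivative (ψ.symm (ψ p * ψ q))) =
      ψ p • aeval t (derivative (ψ.symm (ψ q))) + ψ q • aeval t (derivative (ψ.symm (ψ p)))
    rw [← map_mul, ψ.symm_apply_apply, ψ.symm_apply_apply, ψ.symm_apply_apply,
      Polynomial.derivative_mul, map_add, map_mul, map_mul, Algebra.smul_def, Algebra.smul_def]
    change _ = ((ψ p : A) : K) * _ + ((ψ q : A) : K) * _
    rw [hψ, hψ]
    ring
  · change aeval t (derivative (ψ.symm (gen (k := k) t))) = 1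
    have h1 : ψ.symm (gen (k := k) t) = X := by
      rw [AlgEquiv.symm_apply_eq]
      change _ = aeval (gen (k := k) t) X
      rw [aeval_X]
    rw [h1, Polynomial.derivative_X, map_one]

/-- A transcendental element is moved by a derivation. -/
theorem exists_derivation {K : Type*} [Field K] [CharZero K] [IsAlgClosed K] {t : K}
    (ht : Transcendental ℚ t) : ∃ D : Derivation ℚ K K, D t = 1 := by
  obtain ⟨k0, hcl, hQ, hk0t, halg⟩ := exists_closed_subfield ht
  let A := Algebra.adjoin k0 ({t} : Set K)
  let F := IntermediateField.adjoin k0 ({t} : Set K)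
  have hcF : CharZero F := (algebraMap F K).charZero
  have hFK : Algebra.IsAlgebraic F K := ⟨halg⟩
  have hsep : Algebra.IsSeparable F K := inferInstance
  have e1 : Algebra.FormallyEtale A F :=
    Algebra.FormallyEtale.of_isLocalization (nonZeroDivisors A)
  have e2 : Algebra.FormallyEtale F K := Algebra.FormallyEtale.of_isSeparable F K
  have e3 : Algebra.FormallyEtale A K := Algebra.FormallyEtale.comp A F K
  obtain ⟨d, hd⟩ := exists_poly_derivation hk0t
  obtain ⟨D, hD⟩ := extend_derivation (R := k0) (A := A) (K := K) d
  refine ⟨D.restrictScalars ℚ, ?_⟩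
  have h1 := hD (gen (k := k0) t)
  rw [hd] at h1
  exact h1

/-- The conjugate of a derivation. -/
theorem exists_conj_derivation {K : Type*} [Field K] [CharZero K] [StarRing K]
    (D : Derivation ℚ K K) : ∃ D' : Derivation ℚ K K, ∀ z, D' z = star (D (star z)) := by
  refine ⟨Derivation.mk' { toFun := fun z => star (D (star z)), map_add' := ?_, map_smul' := ?_ }
    ?_, fun z => rfl⟩
  · intro x y
    simp only [star_add, map_add]
  · intro c x
    simp only [RingHom.id_apply]
    have h1 : star (c • x) = c • star x := by
      rw [Algebra.smul_def, Algebra.smul_def, star_mul', eq_ratCast, star_ratCast]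
    rw [h1, Derivation.map_smul]
    rw [Algebra.smul_def, Algebra.smul_def, star_mul', eq_ratCast, star_ratCast]
  · intro a b
    change star (D (star (a * b))) = a • star (D (star b)) + b • star (D (star a))
    rw [star_mul', Derivation.leibniz, star_add, smul_eq_mul, smul_eq_mul, star_mul', star_mul',
      star_star, star_star, smul_eq_mul, smul_eq_mul]

/-- A transcendental element is moved by a derivation commuting with the star operation. -/
theorem exists_star_derivation {K : Type*} [Field K] [CharZero K] [IsAlgClosed K] [StarRing K]
    (I : K) (hI : I * I = -1) (hsI : star I = -I) {t : K} (ht : Transcendental ℚ t) :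
    ∃ D : Derivation ℚ K K, (∀ z, D (star z) = star (D z)) ∧ D t ≠ 0 := by
  obtain ⟨D, hD⟩ := exists_derivation ht
  obtain ⟨D', hD'⟩ := exists_conj_derivation D
  have h1 : ∀ z, star (D z) = D' (star z) := fun z => by rw [hD', star_star]
  have h2 : ∀ z, star (D' z) = D (star z) := fun z => by rw [hD', star_star]
  by_cases h3 : (D + D') t = 0
  · refine ⟨I • (D - D'), ?_, ?_⟩
    · intro z
      change I * (D (star z) - D' (star z)) = star (I * (D z - D' z))
      rw [star_mul', star_sub, h1, h2, hsI]
      ring
    · intro h4
      have h5 : I * (D t - D' t) = 0 := h4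
      have hI0 : I ≠ 0 := by
        intro h0
        rw [h0, mul_zero] at hI
        exact one_ne_zero (neg_eq_zero.mp hI.symm)
      have h6 : D t - D' t = 0 := (mul_eq_zero.mp h5).resolve_left hI0
      have h7 : D t + D' t = 0 := h3
      have h8 : D t = 0 := by
        have h9 : (2 : K) * D t = 0 := by linear_combination h6 + h7
        exact (mul_eq_zero.mp h9).resolve_left two_ne_zero
      rw [hD] at h8
      exact one_ne_zero h8
  · refine ⟨D + D', ?_, h3⟩
    intro z
    change D (star z) + D' (star z) = star (D z + D' z)
    rw [star_add, h1, h2, add_comm]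

/-- Derivations vanish on algebraic numbers. -/
theorem derivation_algebraic {K : Type*} [Field K] [CharZero K] (D : Derivation ℚ K K) {z : K}
    (hz : IsAlgebraic ℚ z) : D z = 0 := by
  have hint : IsIntegral ℚ z := hz.isIntegral
  have h1 := minpoly.aeval ℚ z
  have h2 : aeval z (derivative (minpoly ℚ z)) ≠ 0 :=
    (minpoly.irreducible hint).separable.aeval_derivative_ne_zero h1
  have h3 : ∀ q : ℚ[X], D (aeval z q) = aeval z (derivative q) * D z := by
    intro q
    induction q using Polynomial.induction_on' with
    | add p q hp hq => rw [map_add, map_add, hp, hq, map_add, map_add, add_mul]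
    | monomial n a =>
      rw [aeval_monomial, derivative_monomial, aeval_monomial, Derivation.leibniz,
        Derivation.map_algebraMap, Derivation.leibniz_pow]
      rw [smul_zero, add_zero, smul_eq_mul, nsmul_eq_mul, smul_eq_mul, map_mul, map_natCast]
      ring
  have h4 := h3 (minpoly ℚ z)
  rw [h1, map_zero] at h4
  exact (mul_eq_zero.mp h4.symm).resolve_left h2

/-- Derivations vanish on the image of the algebraic numbers. -/
theorem derivation_iota {K : Type*} [Field K] [CharZero K] (D : Derivation ℚ K K)
    (ι : Bz →+* K) (b : Bz) : D (ι b) = 0 := by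
  apply derivation_algebraic
  have h1 : IsAlgebraic ℚ b := (algebraicClosure.isAlgebraic ℚ ℂ).isAlgebraic b
  exact h1.algHom ι.toRatAlgHom

end Pool.Agent.SicCi
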