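import Pool.Agent.Lib.MP_d0f9e0_co.Ci.JetSum
import Pool.Agent.Lib.MP_d0f9e0_co.Ci.Der

/-!
# From a derivation to a second order jet
-/

namespace Pool.Agent.SicCi

open Finset Pool.Agent.SicAb

set_option linter.unusedSectionVars false

variable {A : Type} [AddCommGroup A] [Fintype A] [DecidableEq A]

section

variable {K : Type*} [Field K] [StarRing K] [CharZero K] {ι : Bz →+* K} {x z : A → K}


/-- The second order condition from a derivation. -/
theorem Tan.sec (T : Tan ι x z) (D : Derivation ℚ K K) (w : A → K)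
    (hf : ∀ h, D (ov ι (fun r => star (x r)) x h) =
      ov ι (fun r => star (z r)) x h + ov ι (fun r => star (x r)) z h)
    (hp : ∀ h, D (ov ι (fun r => star (x r)) z h) =
      ov ι (fun r => star (z r)) z h + ov ι (fun r => star (x r)) w h) :
    ∑ h, (ja ι x z h ^ 2 + star (ja ι x z h) ^ 2) * (ja ι x z h * star (ja ι x z h)) =
      2 * (Fintype.card A : K) * ((Fintype.card A : K) + 1) := by
  set a : PS A → K := ja ι x z with ha
  set f : PS A → K := fun h => ov ι (fun r => star (x r)) x h with hfd
  set q : PS A → K := fun h => ov ι (fun r => star (z r)) z h with hq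
  have hn1 := nn1_ne (A := A) T.pos
  -- `w = b f`
  have hw : ∀ h, ov ι (fun r => star (x r)) w h =
      (D (a h) + a h ^ 2 - a h * star (a h)) * f h - q h := by
    intro h
    have h1 := hp h
    rw [T.p_eq h, Derivation.leibniz, hf h, T.p_eq h, T.zx_eq h, smul_eq_mul, smul_eq_mul] at h1
    change a h * (-star (a h) * f h + a h * f h) + f h * D (a h) = q h + _ at h1
    linear_combination -h1
  have hw0 : ov ι (fun r => star (x r)) w 0 = -1 := by
    have h1 := hp 0
    rw [T.perp, map_zero, T.unit] at h1
    linear_combination -h1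
  -- test against the orthogonal part of `w`
  have hu0 : ov ι (fun r => star (x r)) (fun r => w r + 1 * x r) 0 = 0 := by
    rw [ov_add_right, ov_smul_right, hw0, T.sol.zero]
    ring
  have h1 := sum_test ι T.pos T.sol (z := z) (fun r => star (z r)) (fun r => w r + 1 * x r)
    T.perp hu0
  have h2 : ∀ h : PS A, (ov ι (fun r => star (x r)) z h * ov ι (fun r => star (z r)) x (-h)) *
      (ov ι (fun r => star (x r)) (fun r => w r + 1 * x r) h *
        ov ι (fun r => star (x r)) x (-h)) =
      (((Fintype.card A : K) + 1)⁻¹) ^ 2 * ((a h * star (a h)) * D (a h) + (a h ^ 2 * (a h * star (a h)) -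
        (a h * star (a h)) ^ 2 + (a h * star (a h)))) -
        ((Fintype.card A : K) + 1)⁻¹ * ((a h * star (a h)) * (q h * f (-h))) := by
    intro h
    have h3 := T.eps_a h
    have h4 := T.ff h
    change f h * f (-h) = _ at h4
    rw [T.pp_eq, ov_add_right, ov_smul_right, hw h]
    change ((Fintype.card A : K) + 1)⁻¹ * (a h * star (a h)) * (((D (a h) + a h ^ 2 - a h * star (a h)) * f h -
      q h + 1 * f h) * f (-h)) = _
    calc ((Fintype.card A : K) + 1)⁻¹ * (a h * star (a h)) * (((D (a h) + a h ^ 2 - a h * star (a h)) * f h -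
      q h + 1 * f h) * f (-h)) = ((Fintype.card A : K) + 1)⁻¹ * ((f h * f (-h)) * (a h) * star (a h) *
        (D (a h) + a h ^ 2 - a h * star (a h) + 1)) -
        ((Fintype.card A : K) + 1)⁻¹ * ((a h * star (a h)) * (q h * f (-h))) := by ring
      _ = ((Fintype.card A : K) + 1)⁻¹ * (((Fintype.card A : K) + 1)⁻¹ * ((eps A K h * a h) * star (a h) *
        (D (a h) + a h ^ 2 - a h * star (a h) + 1))) -
        ((Fintype.card A : K) + 1)⁻¹ * ((a h * star (a h)) * (q h * f (-h))) := by rw [h4]; ring
      _ = _ := by rw [h3]; ring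
  rw [Finset.sum_congr rfl fun h _ => h2 h, Finset.sum_sub_distrib, ← Finset.mul_sum,
    ← Finset.mul_sum] at h1
  have h3 : ∑ h : PS A, (a h * star (a h)) * (q h * f (-h)) = 0 := T.sum_mq
  rw [h3, mul_zero, sub_zero] at h1
  have h4 := (mul_eq_zero.mp h1).resolve_left (pow_ne_zero 2 (inv_ne_zero hn1))
  rw [Finset.sum_add_distrib, Finset.sum_add_distrib, Finset.sum_sub_distrib] at h4
  -- the odd sum
  have h5 : ∑ h : PS A, (a h * star (a h)) * D (a h) = 0 := by
    have h6 : ∑ h : PS A, (a h * star (a h)) * D (a h) =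
        ∑ h : PS A, (a (-h) * star (a (-h))) * D (a (-h)) :=
      (Fintype.sum_equiv (Equiv.neg (PS A)) _ _ (fun _ => rfl)).symm
    have h7 : ∀ h : PS A, (a (-h) * star (a (-h))) * D (a (-h)) =
        -((a h * star (a h)) * D (a h)) := by
      intro h
      have h8 : a (-h) = -a h := T.odd h
      rw [h8, star_neg, map_neg]
      ring
    rw [Finset.sum_congr rfl fun h _ => h7 h, Finset.sum_neg_distrib] at h6
    have h9 : (2 : K) * ∑ h : PS A, (a h * star (a h)) * D (a h) = 0 := by
      linear_combination h6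
    exact (mul_eq_zero.mp h9).resolve_left (two_ne T.pos)
  have h6 : ∑ h : PS A, (a h * star (a h)) ^ 2 = 2 * (Fintype.card A : K) * ((Fintype.card A : K) + 1) := T.sum_m_sq
  have h7 : ∑ h : PS A, a h * star (a h) = (Fintype.card A : K) * ((Fintype.card A : K) + 1) := T.sum_m
  rw [h5, h6, h7] at h4
  have h8 : ∑ h : PS A, a h ^ 2 * (a h * star (a h)) = (Fintype.card A : K) * ((Fintype.card A : K) + 1) := by
    linear_combination h4
  have h9 : ∑ h : PS A, star (a h) ^ 2 * (a h * star (a h)) = (Fintype.card A : K) * ((Fintype.card A : K) + 1) := by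
    have h10 := congrArg star h8
    rw [star_sum, star_mul', star_add, star_natCast, star_one] at h10
    rw [← h10]
    apply Finset.sum_congr rfl
    intro h _
    rw [star_mul', star_mul', star_pow, star_star]
    ring
  have h10 : ∀ h : PS A, (a h ^ 2 + star (a h) ^ 2) * (a h * star (a h)) =
      a h ^ 2 * (a h * star (a h)) + star (a h) ^ 2 * (a h * star (a h)) := fun h => by ring
  rw [Finset.sum_congr rfl fun h _ => h10 h, Finset.sum_add_distrib, h8, h9]
  ring

/-- Leibniz rule for overlaps. -/
theorem der_ov (D : Derivation ℚ K K) (y x : A → K) (h : PS A) :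
    D (ov ι y x h) = ov ι (fun r => D (y r)) x h + ov ι y (fun r => D (x r)) h := by
  simp only [ov_def]
  rw [Derivation.leibniz, derivation_iota, smul_zero, add_zero, smul_eq_mul, map_sum, ← mul_add,
    ← Finset.sum_add_distrib]
  congr 1
  apply Finset.sum_congr rfl
  intro r _
  rw [Derivation.leibniz, Derivation.leibniz, derivation_iota, smul_zero, zero_add]
  simp only [smul_eq_mul]
  ring

theorem der_natCast (D : Derivation ℚ K K) (m : ℕ) : D (m : K) = 0 := by
  have := D.map_natCast m
  exact this

theorem der_eps (D : Derivation ℚ K K) (h : PS A) : D (eps A K h) = 0 := by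
  unfold eps
  split_ifs
  · rw [map_add, der_natCast, Derivation.map_one_eq_zero, add_zero]
  · exact Derivation.map_one_eq_zero D

/-- The overlap at the origin. -/
theorem ov_zero (y x : A → K) : ov ι y x 0 = ∑ r, y r * x r := by
  rw [ov_def]
  simp

/-- The imaginary unit. -/
theorem exists_I (hpos : PosStar K) (ι : Bz →+* K) : ∃ I : K, I * I = -1 ∧ star I = -I := by
  obtain ⟨I₀, hI₀⟩ := exists_sq (-1)
  refine ⟨ι I₀, by rw [← map_mul, hI₀, map_neg, map_one], ?_⟩
  have hII : ι I₀ * ι I₀ = -1 := by rw [← map_mul, hI₀, map_neg, map_one]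
  have h3 : I₀ ^ 4 = 1 := by
    have : I₀ ^ 4 = (I₀ * I₀) * (I₀ * I₀) := by ring
    rw [this, hI₀]
    ring
  have h4 := star_mul_of_pow hpos ι (by norm_num) h3
  calc star (ι I₀) = -(star (ι I₀) * (ι I₀ * ι I₀)) := by rw [hII]; ring
    _ = -((star (ι I₀) * ι I₀) * ι I₀) := by ring
    _ = -ι I₀ := by rw [h4, one_mul]

/-- Square roots of sums of norms are invariant under the star operation. -/
theorem exists_real_sqrt [IsAlgClosed K] (hpos : PosStar K) (v : A → K)
    (hv : ∑ r, star (v r) * v r ≠ 0) :
    ∃ ρ : K, ρ ≠ 0 ∧ star ρ = ρ ∧ ρ * ρ = ∑ r, star (v r) * v r := by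
  set l : K := ∑ r, star (v r) * v r with hl
  obtain ⟨ρ, hρ⟩ := IsAlgClosed.exists_pow_nat_eq l (n := 2) (by norm_num)
  have hρ2 : ρ * ρ = l := by rw [← hρ]; ring
  have hρ0 : ρ ≠ 0 := by
    intro h0
    rw [h0, mul_zero] at hρ2
    exact hv hρ2.symm
  refine ⟨ρ, hρ0, ?_, hρ2⟩
  have hsl : star l = l := by
    rw [hl, star_sum]
    apply Finset.sum_congr rfl
    intro r _
    rw [star_mul', star_star]
    ring
  have h1 : star ρ * star ρ = l := by
    rw [← star_mul', hρ2, hsl]
  have h2 : (star ρ - ρ) * (star ρ + ρ) = 0 := by linear_combination h1 - hρ2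
  rcases mul_eq_zero.mp h2 with h3 | h3
  · exact sub_eq_zero.mp h3
  · exfalso
    have h4 : star ρ * ρ = -l := by
      have h5 : star ρ = -ρ := eq_neg_of_add_eq_zero_left h3
      rw [h5]
      linear_combination -hρ2
    have h5 : ∑ i ∈ (Finset.univ : Finset (Option A)),
        star ((fun o : Option A => o.elim ρ v) i) * (fun o : Option A => o.elim ρ v) i = 0 := by
      rw [Fintype.sum_option]
      simp only [Option.elim_none, Option.elim_some]
      rw [h4, ← hl]
      ring
    have h6 := hpos (Option A) Finset.univ (fun o : Option A => o.elim ρ v) h5 none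
      (Finset.mem_univ _)
    exact hρ0 h6

/-- A real solution with a transcendental entry has a second order jet. -/
theorem exists_jet [IsAlgClosed K] (hpos : PosStar K) (ι : Bz →+* K) {x : A → K}
    (hx : IsSol ι (fun r => star (x r)) x) {r s : A}
    (ht : Transcendental ℚ (star (x r) * x s)) : ∃ z, Jet ι x z := by
  obtain ⟨I, hI, hsI⟩ := exists_I hpos ι
  obtain ⟨D0, hD0, hD0t⟩ := exists_star_derivation I hI hsI ht
  set y : A → K := fun r => star (x r) with hy
  -- the gauge for a derivation commuting with the star operation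
  have gauge : ∀ D : Derivation ℚ K K, (∀ t, D (star t) = star (D t)) →
      star (ov ι y (fun r => D (x r)) 0) = -ov ι y (fun r => D (x r)) 0 := by
    intro D hD
    have h1 := der_ov (ι := ι) D y x 0
    rw [hx.zero, Derivation.map_one_eq_zero] at h1
    have h2 : star (ov ι y (fun r => D (x r)) 0) = ov ι (fun r => D (y r)) x 0 := by
      rw [star_ov hpos, neg_zero]
      congr 1
      · funext r
        rw [hy]
        exact (hD (x r)).symm
      · funext r
        rw [hy]
        exact star_star (x r)
    rw [h2]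
    linear_combination -h1
  set c : K := ov ι y (fun r => D0 (x r)) 0 with hc
  have hsc : star c = -c := gauge D0 hD0
  set v : A → K := fun r => D0 (x r) - c * x r with hv
  have hv0 : ∑ r, star (v r) * v r ≠ 0 := by
    intro h0
    have h1 := hpos A Finset.univ v h0
    apply hD0t
    have h2 : D0 (x s) = c * x s := sub_eq_zero.mp (h1 s (Finset.mem_univ s))
    have h3 : D0 (x r) = c * x r := sub_eq_zero.mp (h1 r (Finset.mem_univ r))
    rw [Derivation.leibniz, hD0, h2, h3, star_mul', hsc]
    simp only [smul_eq_mul]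
    ring
  obtain ⟨ρ, hρ0, hsρ, hρρ⟩ := exists_real_sqrt hpos v hv0
  -- rescale
  set D : Derivation ℚ K K := ρ⁻¹ • D0 with hDdef
  have hDa : ∀ t, D t = ρ⁻¹ * D0 t := fun t => rfl
  have hsρi : star ρ⁻¹ = ρ⁻¹ := by rw [star_inv₀, hsρ]
  have hD : ∀ t, D (star t) = star (D t) := by
    intro t
    rw [hDa, hDa, hD0, star_mul', hsρi]
  set c' : K := ov ι y (fun r => D (x r)) 0 with hc'
  have hsc' : star c' = -c' := gauge D hD
  have hcc' : c' = ρ⁻¹ * c := by
    rw [hc', hc, ← ov_smul_right]
    rfl
  set z : A → K := fun r => D (x r) - c' * x r with hz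
  have hzv : ∀ r, z r = ρ⁻¹ * v r := by
    intro r
    simp only [hz, hv]
    rw [hDa, hcc']
    ring
  have hDx : (fun r => D (x r)) = fun r => z r + c' * x r := by
    funext r
    simp only [hz]
    ring
  have hDy : (fun r => D (y r)) = fun r => star (z r) + (-c') * y r := by
    funext r
    simp only [hz, hy]
    rw [hD, star_sub, star_mul', hsc']
    ring
  set w : A → K := fun r => D (z r) - c' * z r with hw
  have hDz : (fun r => D (z r)) = fun r => w r + c' * z r := by
    funext r
    simp only [hw]
    ring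
  have hf : ∀ h, D (ov ι y x h) = ov ι (fun r => star (z r)) x h + ov ι y z h := by
    intro h
    rw [der_ov, hDx, hDy, ov_add_left, ov_add_right, ov_smul_left, ov_smul_right]
    ring
  have hp : ∀ h, D (ov ι y z h) = ov ι (fun r => star (z r)) z h + ov ι y w h := by
    intro h
    rw [der_ov, hDz, hDy, ov_add_left, ov_add_right, ov_smul_left, ov_smul_right]
    ring
  have hperp : ov ι y z 0 = 0 := by
    have h1 : ov ι y (fun r => D (x r)) 0 = ov ι y z 0 + c' * ov ι y x 0 := by
      rw [hDx, ov_add_right, ov_smul_right]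
    rw [← hc', hx.zero] at h1
    linear_combination -h1
  have hunit : ov ι (fun r => star (z r)) z 0 = 1 := by
    rw [ov_zero]
    have h1 : ∀ r, star (z r) * z r = ρ⁻¹ * ρ⁻¹ * (star (v r) * v r) := by
      intro r
      rw [hzv, star_mul', hsρi]
      ring
    rw [Finset.sum_congr rfl fun r _ => h1 r, ← Finset.mul_sum, ← hρρ]
    field_simp
  have htan : Tangent ι y x (fun r => star (z r)) z := by
    intro h
    have h1 := congrArg D (hx.mul h)
    rw [der_eps, Derivation.leibniz, Derivation.leibniz, map_add, der_natCast,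
      Derivation.map_one_eq_zero, add_zero, smul_zero, add_zero, hf, hf] at h1
    simp only [smul_eq_mul] at h1
    have h2 := (mul_eq_zero.mp h1).resolve_left (nn1_ne (A := A) hpos)
    linear_combination h2
  have T : Tan ι x z := ⟨hpos, hx, hperp, hunit, htan⟩
  exact ⟨z, ⟨hx, hperp, hunit, htan, T.sec D w hf hp⟩⟩

end

end Pool.Agent.SicCi
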