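import Pool.Agent.Lib.MP_d0f9e0_co.Ab.Rigid
import Pool.Agent.Lib.MP_d0f9e0_co.Ci.JetDef

/-!
# Fourier identities of a tangent vector at a real solution
-/

namespace Pool.Agent.SicCi

open Finset Pool.Agent.SicAb

set_option linter.unusedSectionVars false

variable {A : Type} [AddCommGroup A] [Fintype A] [DecidableEq A]

section

variable {K : Type*} [Field K] [StarRing K] (ι : Bz →+* K) {x z : A → K}


theorem nn_ne (hpos : PosStar K) : (Fintype.card A : K) ≠ 0 :=
  cast_ne_zero_of_pos hpos Fintype.card_ne_zero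

theorem nn1_ne (hpos : PosStar K) : (Fintype.card A : K) + 1 ≠ 0 := by
  have := cast_ne_zero_of_pos hpos (Nat.succ_ne_zero (Fintype.card A))
  push_cast at this
  exact this

theorem two_ne (hpos : PosStar K) : (2 : K) ≠ 0 := by
  have := cast_ne_zero_of_pos hpos (n := 2) (by norm_num)
  exact_mod_cast this

theorem ff_eq {y x : A → K} (hx : IsSol ι y x) (hpos : PosStar K) (h : PS A) :
    ov ι y x h * ov ι y x (-h) = ((Fintype.card A : K) + 1)⁻¹ * eps A K h := by
  rw [eq_inv_mul_iff_mul_eq₀ (nn1_ne hpos)]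
  exact hx.mul h

theorem eps_mul_of_zero {u : PS A → K} (hu : u 0 = 0) (h : PS A) : eps A K h * u h = u h := by
  by_cases h1 : h = 0
  · rw [h1, hu, mul_zero]
  · rw [eps, if_neg h1, one_mul]

/-- The test identity: `|<x, D z>|²` is orthogonal to `<x, D u> / <x, D x>`. -/
theorem sum_test (hpos : PosStar K) (hx : IsSol ι (fun r => star (x r)) x) (y' u : A → K)
    (hz : ov ι (fun r => star (x r)) z 0 = 0) (hu : ov ι (fun r => star (x r)) u 0 = 0) :
    ∑ h, (ov ι (fun r => star (x r)) z h * ov ι y' x (-h)) *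
      (ov ι (fun r => star (x r)) u h * ov ι (fun r => star (x r)) x (-h)) = 0 := by
  set y : A → K := fun r => star (x r) with hy
  have h1 := parseval ι (fun h => ov ι y z h * ov ι y' x (-h))
    (fun h => ov ι y u h * ov ι y x (-h))
  have h2 : ∀ k, G ι (fun h => ov ι y z h * ov ι y' x (-h)) k *
      G ι (fun h => ov ι y u h * ov ι y x (-h)) (-k) =
      (Fintype.card A : K) ^ 2 * ((Fintype.card A : K) + 1)⁻¹ * (ov ι y u k * ov ι y' z (-k)) := by
    intro k
    rw [duality ι y z y' x k, duality ι y u y x (-k), neg_neg]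
    have h3 := ff_eq ι hx hpos k
    have h4 := eps_mul_of_zero (u := fun h => ov ι y u h) hu k
    calc (Fintype.card A : K) * (ov ι y x k * ov ι y' z (-k)) * ((Fintype.card A : K) * (ov ι y x (-k) * ov ι y u k)) =
        (Fintype.card A : K) ^ 2 * ((ov ι y x k * ov ι y x (-k)) * ov ι y u k) * ov ι y' z (-k) := by ring
      _ = (Fintype.card A : K) ^ 2 * ((Fintype.card A : K) + 1)⁻¹ * ((eps A K k * ov ι y u k) * ov ι y' z (-k)) := by
        rw [h3]; ring
      _ = _ := by rw [h4]
  rw [Finset.sum_congr rfl fun k _ => h2 k, ← Finset.mul_sum] at h1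
  have h5 := duality ι y u y' z 0
  rw [G_zero_apply, hz, zero_mul, mul_zero] at h5
  rw [h5, mul_zero] at h1
  exact (mul_eq_zero.mp h1.symm).resolve_left (pow_ne_zero 2 (nn_ne hpos))

/-- First order data of a real solution: a unit tangent vector orthogonal to it. -/
structure Tan (x z : A → K) : Prop where
  pos : PosStar K
  sol : IsSol ι (fun r => star (x r)) x
  perp : ov ι (fun r => star (x r)) z 0 = 0
  unit : ov ι (fun r => star (z r)) z 0 = 1
  tan : Tangent ι (fun r => star (x r)) x (fun r => star (z r)) z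

namespace Tan

variable {ι} (T : Tan ι x z)

include T

theorem f_ne (h : PS A) : ov ι (fun r => star (x r)) x h ≠ 0 := ov_ne_zero ι T.pos T.sol h

theorem p_eq (h : PS A) : ov ι (fun r => star (x r)) z h =
    ja ι x z h * ov ι (fun r => star (x r)) x h := (div_mul_cancel₀ _ (T.f_ne h)).symm

theorem a_zero : ja ι x z 0 = 0 := by
  unfold ja
  rw [T.perp, zero_div]

theorem odd (h : PS A) : ja ι x z (-h) = -ja ι x z h := by
  have h1 := rigid_core ι T.pos T.sol z T.perp T.tan h
  rw [T.p_eq h, T.p_eq (-h)] at h1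
  have h2 : (ov ι (fun r => star (x r)) x h * ov ι (fun r => star (x r)) x (-h)) *
      (ja ι x z h + ja ι x z (-h)) = 0 := by
    rw [← h1]; ring
  have h3 := (mul_eq_zero.mp h2).resolve_left (mul_ne_zero (T.f_ne h) (T.f_ne (-h)))
  linear_combination h3

theorem star_f (h : PS A) : star (ov ι (fun r => star (x r)) x h) =
    ov ι (fun r => star (x r)) x (-h) := by
  rw [star_ov T.pos]
  congr 1
  funext r
  exact star_star (x r)

theorem zx_neg (h : PS A) : ov ι (fun r => star (z r)) x (-h) =
    star (ja ι x z h) * ov ι (fun r => star (x r)) x (-h) := by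
  have h1 := congrArg star (T.p_eq h)
  rw [star_mul', T.star_f, star_ov T.pos] at h1
  rw [← h1]
  congr 1
  funext r
  exact (star_star (x r)).symm

theorem zx_eq (h : PS A) : ov ι (fun r => star (z r)) x h =
    -star (ja ι x z h) * ov ι (fun r => star (x r)) x h := by
  have h1 := T.zx_neg (-h)
  rw [neg_neg, T.odd, star_neg] at h1
  exact h1

theorem ff (h : PS A) : ov ι (fun r => star (x r)) x h * ov ι (fun r => star (x r)) x (-h) =
    ((Fintype.card A : K) + 1)⁻¹ * eps A K h := ff_eq ι T.sol T.pos h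

theorem eps_a (h : PS A) : eps A K h * ja ι x z h = ja ι x z h :=
  eps_mul_of_zero (u := ja ι x z) T.a_zero h

/-- `P = |<x, D z>|²` is `m / (n + 1)`. -/
theorem pp_eq (h : PS A) : ov ι (fun r => star (x r)) z h * ov ι (fun r => star (z r)) x (-h) =
    ((Fintype.card A : K) + 1)⁻¹ * (ja ι x z h * star (ja ι x z h)) := by
  have h1 := T.eps_a h
  rw [T.p_eq, T.zx_neg]
  calc ja ι x z h * ov ι (fun r => star (x r)) x h *
        (star (ja ι x z h) * ov ι (fun r => star (x r)) x (-h)) =
        (ov ι (fun r => star (x r)) x h * ov ι (fun r => star (x r)) x (-h)) *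
          (ja ι x z h * star (ja ι x z h)) := by ring
    _ = ((Fintype.card A : K) + 1)⁻¹ * ((eps A K h * ja ι x z h) * star (ja ι x z h)) := by rw [T.ff]; ring
    _ = _ := by rw [h1]

theorem G_a (k : PS A) : G ι (ja ι x z) k = (Fintype.card A : K) * ja ι x z (-k) := by
  have h1 := duality ι (fun r => star (x r)) z (fun r => star (x r)) x k
  have h2 : (fun h => ov ι (fun r => star (x r)) z h * ov ι (fun r => star (x r)) x (-h)) =
      fun h => ((Fintype.card A : K) + 1)⁻¹ * ja ι x z h := by
    funext h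
    have h3 := T.eps_a h
    calc ov ι (fun r => star (x r)) z h * ov ι (fun r => star (x r)) x (-h) =
          ja ι x z h * (ov ι (fun r => star (x r)) x h * ov ι (fun r => star (x r)) x (-h)) := by
          rw [T.p_eq]; ring
      _ = ((Fintype.card A : K) + 1)⁻¹ * (eps A K h * ja ι x z h) := by rw [T.ff]; ring
      _ = _ := by rw [h3]
  rw [h2, G_smul] at h1
  have h5 : ov ι (fun r => star (x r)) x k * ov ι (fun r => star (x r)) z (-k) =
      ((Fintype.card A : K) + 1)⁻¹ * ja ι x z (-k) := by
    have h3 := T.eps_a (-k)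
    have h4 := T.ff (-k)
    rw [neg_neg] at h4
    calc ov ι (fun r => star (x r)) x k * ov ι (fun r => star (x r)) z (-k) =
          ja ι x z (-k) *
            (ov ι (fun r => star (x r)) x (-k) * ov ι (fun r => star (x r)) x k) := by
          rw [T.p_eq]; ring
      _ = ((Fintype.card A : K) + 1)⁻¹ * (eps A K (-k) * ja ι x z (-k)) := by rw [h4]; ring
      _ = _ := by rw [h3]
  rw [h5] at h1
  apply mul_left_cancel₀ (inv_ne_zero (nn1_ne (A := A) T.pos))
  rw [h1]
  ring

/-- `Σ m = n (n + 1)`. -/
theorem sum_m : ∑ h, ja ι x z h * star (ja ι x z h) = (Fintype.card A : K) * ((Fintype.card A : K) + 1) := by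
  have h1 := duality ι (fun r => star (x r)) z (fun r => star (z r)) x 0
  rw [G_zero_apply, neg_zero, T.sol.zero, T.unit] at h1
  simp only [T.pp_eq] at h1
  rw [← Finset.mul_sum, inv_mul_eq_iff_eq_mul₀ (nn1_ne T.pos)] at h1
  rw [h1]
  ring

/-- `Σ m² = 2 n (n + 1)`. -/
theorem sum_m_sq : ∑ h, (ja ι x z h * star (ja ι x z h)) ^ 2 = 2 * (Fintype.card A : K) * ((Fintype.card A : K) + 1) := by
  have hn := nn_ne (A := A) T.pos
  have hn1 := nn1_ne (A := A) T.pos
  have h1 := parseval ι
    (fun h => ov ι (fun r => star (x r)) z h * ov ι (fun r => star (z r)) x (-h))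
    (fun h => ov ι (fun r => star (x r)) z h * ov ι (fun r => star (z r)) x (-h))
  have h2 : ∀ k : PS A,
      G ι (fun h => ov ι (fun r => star (x r)) z h * ov ι (fun r => star (z r)) x (-h)) k *
      G ι (fun h => ov ι (fun r => star (x r)) z h * ov ι (fun r => star (z r)) x (-h)) (-k) =
      (Fintype.card A : K) ^ 2 * ((Fintype.card A : K) + 1)⁻¹ * (eps A K k * (ov ι (fun r => star (z r)) z k *
        ov ι (fun r => star (z r)) z (-k))) := by
    intro k
    rw [duality ι (fun r => star (x r)) z (fun r => star (z r)) x k,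
      duality ι (fun r => star (x r)) z (fun r => star (z r)) x (-k), neg_neg]
    calc (Fintype.card A : K) * (ov ι (fun r => star (x r)) x k * ov ι (fun r => star (z r)) z (-k)) *
        ((Fintype.card A : K) * (ov ι (fun r => star (x r)) x (-k) * ov ι (fun r => star (z r)) z k)) =
        (Fintype.card A : K) ^ 2 * (ov ι (fun r => star (x r)) x k * ov ι (fun r => star (x r)) x (-k)) *
          (ov ι (fun r => star (z r)) z k * ov ι (fun r => star (z r)) z (-k)) := by ring
      _ = _ := by rw [T.ff]; ring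
  rw [Finset.sum_congr rfl fun k _ => h2 k, ← Finset.mul_sum] at h1
  have h3 : ∀ k : PS A, eps A K k * (ov ι (fun r => star (z r)) z k *
        ov ι (fun r => star (z r)) z (-k)) = ov ι (fun r => star (z r)) z k *
        ov ι (fun r => star (z r)) z (-k) + (if k = 0 then (Fintype.card A : K) else 0) := by
    intro k
    unfold eps
    split_ifs with h0
    · rw [h0, neg_zero, T.unit]; ring
    · ring
  have h4 := duality ι (fun r => star (z r)) z (fun r => star (z r)) z 0
  rw [G_zero_apply, neg_zero, T.unit] at h4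
  rw [Finset.sum_congr rfl fun k _ => h3 k, Finset.sum_add_distrib, h4,
    Finset.sum_ite_eq' Finset.univ (0 : PS A), if_pos (Finset.mem_univ _)] at h1
  simp only [T.pp_eq] at h1
  have h5 : ∀ h : PS A, ((Fintype.card A : K) + 1)⁻¹ * (ja ι x z h * star (ja ι x z h)) *
      (((Fintype.card A : K) + 1)⁻¹ * (ja ι x z h * star (ja ι x z h))) =
      (((Fintype.card A : K) + 1)⁻¹) ^ 2 * (ja ι x z h * star (ja ι x z h)) ^ 2 := fun h => by ring
  rw [Finset.sum_congr rfl fun h _ => h5 h, ← Finset.mul_sum] at h1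
  field_simp at h1
  simp only [mul_pow]
  linear_combination -h1

/-- `Σ m q f^∨ = 0`. -/
theorem sum_mq : ∑ h, (ja ι x z h * star (ja ι x z h)) * (ov ι (fun r => star (z r)) z h *
    ov ι (fun r => star (x r)) x (-h)) = 0 := by
  have hn := nn_ne (A := A) T.pos
  have h1 := parseval ι (ja ι x z)
    (fun h => ov ι (fun r => star (z r)) z h * ov ι (fun r => star (z r)) x (-h))
  have h2 : ∀ k : PS A, G ι (ja ι x z) k *
      G ι (fun h => ov ι (fun r => star (z r)) z h * ov ι (fun r => star (z r)) x (-h)) (-k) =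
      -((Fintype.card A : K) ^ 2) * (ja ι x z k * (ov ι (fun r => star (z r)) z k *
        ov ι (fun r => star (z r)) x (-k))) := by
    intro k
    rw [T.G_a, duality ι (fun r => star (z r)) z (fun r => star (z r)) x (-k), neg_neg, T.odd]
    ring
  rw [Finset.sum_congr rfl fun k _ => h2 k, ← Finset.mul_sum] at h1
  have h3 : (2 * (Fintype.card A : K) ^ 2) * ∑ h : PS A, (ja ι x z h * (ov ι (fun r => star (z r)) z h *
        ov ι (fun r => star (z r)) x (-h))) = 0 := by
    linear_combination -h1
  have h4 := (mul_eq_zero.mp h3).resolve_left (mul_ne_zero (two_ne T.pos) (pow_ne_zero 2 hn))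
  rw [← h4]
  apply Finset.sum_congr rfl
  intro h _
  rw [T.zx_neg]
  ring

end Tan

end

end Pool.Agent.SicCi
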