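import Pool.Agent.Lib.MP_d0f9e0_co.Ab.Finite
import Pool.Agent.Lib.MP_d0f9e0_co.Ci.JetDef

/-!
# The jet at an accumulation point of fiducials
-/

set_option autoImplicit false

namespace Pool.Agent.SicCi

open Finset Filter Topology Pool.Agent.SicAb

variable {A : Type} [AddCommGroup A] [Fintype A] [DecidableEq A]

/-- Overlaps of two complex vectors. -/
noncomputable def oo (v w : A → ℂ) (h : PS A) : ℂ := ov iC (fun r => star (v r)) w h

theorem oo_add_left (v v' w : A → ℂ) (h : PS A) : oo (v + v') w h = oo v w h + oo v' w h := by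
  unfold oo
  rw [← ov_add_left]
  congr 1
  funext r
  exact star_add _ _

theorem oo_add_right (v w w' : A → ℂ) (h : PS A) : oo v (w + w') h = oo v w h + oo v w' h :=
  ov_add_right iC _ w w' h

theorem oo_smul_left (c : ℂ) (v w : A → ℂ) (h : PS A) : oo (c • v) w h = star c * oo v w h := by
  unfold oo
  rw [← ov_smul_left]
  congr 1
  funext r
  exact star_mul' _ _

theorem oo_smul_right (c : ℂ) (v w : A → ℂ) (h : PS A) : oo v (c • w) h = c * oo v w h :=
  ov_smul_right iC c _ w h

theorem star_oo (v w : A → ℂ) (h : PS A) : star (oo v w h) = oo w v (-h) := by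
  unfold oo
  rw [star_ov posStar_complex]
  congr 1
  funext r
  exact star_star _

theorem continuous_oo (h : PS A) :
    Continuous fun p : (A → ℂ) × (A → ℂ) => oo p.1 p.2 h := by
  unfold oo
  simp only [ov_def]
  fun_prop

theorem tendsto_oo {v w : ℕ → A → ℂ} {v' w' : A → ℂ} (hv : Tendsto v atTop (𝓝 v'))
    (hw : Tendsto w atTop (𝓝 w')) (h : PS A) :
    Tendsto (fun n => oo (v n) (w n) h) atTop (𝓝 (oo v' w' h)) := by
  have h1 : Tendsto (fun n => ((v n, w n) : (A → ℂ) × (A → ℂ))) atTop (𝓝 (v', w')) :=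
    hv.prodMk_nhds hw
  have h2 : Tendsto (fun p : (A → ℂ) × (A → ℂ) => oo p.1 p.2 h) (𝓝 (v', w'))
    (𝓝 (oo v' w' h)) := (continuous_oo h).tendsto (v', w')
  exact Filter.Tendsto.comp (g := fun p : (A → ℂ) × (A → ℂ) => oo p.1 p.2 h)
    (f := fun n => (v n, w n)) h2 h1

/-- The squared norm. -/
noncomputable def nrm (v : A → ℂ) : ℝ := ∑ r, Complex.normSq (v r)

theorem oo_self_zero (v : A → ℂ) : oo v v 0 = (nrm v : ℂ) := by
  unfold oo nrm
  rw [ov_def]
  simp only [Prod.fst_zero, Prod.snd_zero, ch_zero_left, sqz_one, map_one, one_mul,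
    mul_one, add_zero]
  push_cast
  refine Finset.sum_congr rfl fun r _ => ?_
  rw [mul_comm]
  exact Complex.mul_conj _

theorem continuous_nrm : Continuous (nrm : (A → ℂ) → ℝ) := by
  unfold nrm
  exact continuous_finsetSum _ fun r _ => Complex.continuous_normSq.comp (continuous_apply r)

theorem isCompact_nrm : IsCompact {v : A → ℂ | nrm v = 1} := by
  apply Metric.isCompact_of_isClosed_isBounded
  · exact isClosed_eq continuous_nrm continuous_const
  · refine (Metric.isBounded_closedBall (x := (0 : A → ℂ)) (r := 1)).subset fun v hv => ?_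
    rw [mem_closedBall_zero_iff, pi_norm_le_iff_of_nonneg zero_le_one]
    intro r
    have h1 : Complex.normSq (v r) ≤ 1 := by
      have h2 : nrm v = 1 := hv
      rw [← h2]
      exact Finset.single_le_sum (f := fun r => Complex.normSq (v r))
        (fun s _ => Complex.normSq_nonneg _) (Finset.mem_univ r)
    rw [Complex.normSq_eq_norm_sq] at h1
    exact (sq_le_one_iff₀ (norm_nonneg _)).mp h1

theorem fid_iff_oo (x : A → ℂ) : Fid x ↔ oo x x 0 = 1 ∧
    ∀ h, ((Fintype.card A : ℂ) + 1) * (oo x x h * oo x x (-h)) = eps A ℂ h :=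
  ⟨fun h => ⟨h.zero, h.mul⟩, fun h => ⟨h.1, h.2⟩⟩

theorem isClosed_fid : IsClosed {x : A → ℂ | Fid x} := by
  have h1 : {x : A → ℂ | Fid x} = {x | oo x x 0 = 1} ∩
      ⋂ h : PS A, {x | ((Fintype.card A : ℂ) + 1) * (oo x x h * oo x x (-h)) = eps A ℂ h} := by
    ext x
    simp only [Set.mem_ofPred_eq, Set.mem_inter_iff, Set.mem_iInter, fid_iff_oo]
  have hc : ∀ h : PS A, Continuous fun x : A → ℂ => oo x x h := by
    intro h
    unfold oo
    simp only [ov_def]
    fun_prop
  rw [h1]
  refine (isClosed_eq (hc 0) continuous_const).inter (isClosed_iInter fun h => ?_)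
  exact isClosed_eq (continuous_const.mul ((hc h).mul (hc (-h)))) continuous_const

theorem nrm_of_fid {x : A → ℂ} (hx : Fid x) : nrm x = 1 := by
  have h1 := oo_self_zero x
  have h2 : oo x x 0 = 1 := hx.zero
  rw [h2] at h1
  exact_mod_cast h1.symm

theorem isCompact_fid : IsCompact {x : A → ℂ | Fid x} :=
  isCompact_nrm.of_isClosed_subset isClosed_fid fun _ hx => nrm_of_fid hx

theorem fid_phase {x : A → ℂ} (hx : Fid x) {c : ℂ} (hc : star c * c = 1) : Fid (c • x) := by
  rw [fid_iff_oo] at hx ⊢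
  have h1 : ∀ h, oo (c • x) (c • x) h = oo x x h := by
    intro h
    rw [oo_smul_left, oo_smul_right, ← mul_assoc, hc, one_mul]
  simp only [h1]
  exact hx

/-- The sequence of directions at an accumulation point. -/
theorem exists_seq (hinf : {P : A → A → ℂ | ∃ x : A → ℂ, Fid x ∧
      P = fun r s => star (x r) * x s}.Infinite) :
    ∃ (x : A → ℂ) (τ : ℕ → ℝ) (z : ℕ → A → ℂ) (z' : A → ℂ), Fid x ∧ (∀ n, 0 < τ n) ∧
      Tendsto τ atTop (𝓝 0) ∧ Tendsto z atTop (𝓝 z') ∧ (∀ n, Fid (x + (τ n : ℂ) • z n)) ∧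
      (∀ n, oo (z n) (z n) 0 = 1) ∧ ∀ n, star (oo x (z n) 0) = oo x (z n) 0 := by
  classical
  obtain ⟨P, hP⟩ : ∃ P : ℕ → {P : A → A → ℂ | ∃ x : A → ℂ, Fid x ∧
      P = fun r s => star (x r) * x s}, Function.Injective P :=
    ⟨hinf.natEmbedding, hinf.natEmbedding.injective⟩
  choose y hy hPy using fun n => (P n).2
  obtain ⟨x, hx, φ, hφ, hyx⟩ := isCompact_fid.tendsto_subseq hy
  have hx' : Fid x := hx
  have hxx : oo x x 0 = 1 := hx'.zero
  -- phases
  set c : ℕ → ℂ := fun n => oo x (y (φ n)) 0 with hc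
  have hc1 : Tendsto c atTop (𝓝 1) := by
    rw [← hxx]
    exact tendsto_oo tendsto_const_nhds hyx 0
  set u : ℕ → ℂ := fun n => star (c n) / ((‖c n‖ : ℝ) : ℂ) with hu
  have hu1 : Tendsto u atTop (𝓝 1) := by
    have h1 : Tendsto (fun n => star (c n)) atTop (𝓝 (star 1)) :=
      (continuous_star.tendsto (1 : ℂ)).comp hc1
    have h2 : Tendsto (fun n => ((‖c n‖ : ℝ) : ℂ)) atTop (𝓝 ((‖(1 : ℂ)‖ : ℝ) : ℂ)) :=
      (Complex.continuous_ofReal.tendsto _).comp hc1.norm
    have h3 : Tendsto u atTop (𝓝 (star 1 / ((‖(1 : ℂ)‖ : ℝ) : ℂ))) := h1.div h2 (by simp)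
    have h4 : star (1 : ℂ) / ((‖(1 : ℂ)‖ : ℝ) : ℂ) = 1 := by simp
    rw [h4] at h3
    exact h3
  set w : ℕ → A → ℂ := fun n => u n • y (φ n) with hw
  have hw1 : Tendsto w atTop (𝓝 x) := by
    have := hu1.smul hyx
    rw [one_smul] at this
    exact this
  -- eventually the phase is a phase and the vector is not the limit
  have hev1 : ∀ᶠ n in atTop, c n ≠ 0 := hc1.eventually_ne one_ne_zero
  have hphase : ∀ n, c n ≠ 0 → star (u n) * u n = 1 := by
    intro n hn
    have h1 : ((‖c n‖ : ℝ) : ℂ) ≠ 0 := by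
      exact_mod_cast (norm_ne_zero_iff.mpr hn)
    have h2 : star (u n) = c n / ((‖c n‖ : ℝ) : ℂ) := by
      rw [hu]
      simp only [star_div₀, star_star]
      congr 1
      exact Complex.conj_ofReal _
    rw [h2, hu]
    simp only
    rw [div_mul_div_comm, div_eq_one_iff_eq (mul_ne_zero h1 h1)]
    have h3 := Complex.mul_conj (c n)
    rw [Complex.normSq_eq_norm_sq] at h3
    have h4 : c n * star (c n) = ((‖c n‖ ^ 2 : ℝ) : ℂ) := h3
    rw [h4]
    push_cast
    ring
  have hev2 : ∀ᶠ n in atTop, w n ≠ x := by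
    have h1 : {n : ℕ | c n ≠ 0 ∧ w n = x}.Subsingleton := by
      intro n hn m hm
      apply hφ.injective
      apply hP
      apply Subtype.ext
      rw [hPy (φ n), hPy (φ m)]
      have h2 : ∀ k, c k ≠ 0 → w k = x → (fun r s => star (y (φ k) r) * y (φ k) s) =
          fun r s => star (x r) * x s := by
        intro k hk hk'
        funext r s
        rw [← hk']
        simp only [hw, Pi.smul_apply, smul_eq_mul, star_mul']
        have := hphase k hk
        linear_combination (-(star (y (φ k) r) * y (φ k) s)) * this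
      rw [h2 n hn.1 hn.2, h2 m hm.1 hm.2]
    have h3 : {n : ℕ | c n ≠ 0 ∧ w n = x}.Finite := h1.finite
    have h4 : ∀ᶠ n in atTop, n ∉ {n : ℕ | c n ≠ 0 ∧ w n = x} := by
      rw [← Nat.cofinite_eq_atTop]
      exact h3.compl_mem_cofinite
    filter_upwards [h4, hev1] with n h5 h6 h7
    exact h5 ⟨h6, h7⟩
  obtain ⟨n₀, hn₀⟩ := (hev1.and hev2).exists_forall_of_atTop
  set w' : ℕ → A → ℂ := fun n => w (n + n₀) with hw'
  have hw'1 : Tendsto w' atTop (𝓝 x) := (tendsto_add_atTop_iff_nat n₀).mpr hw1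
  have hw'fid : ∀ n, Fid (w' n) := fun n =>
    fid_phase (hy _) (hphase _ (hn₀ (n + n₀) (Nat.le_add_left _ _)).1)
  have hw'ne : ∀ n, w' n - x ≠ 0 := fun n =>
    sub_ne_zero.mpr (hn₀ (n + n₀) (Nat.le_add_left _ _)).2
  have hw're : ∀ n, star (oo x (w' n) 0) = oo x (w' n) 0 := by
    intro n
    have hcn := (hn₀ (n + n₀) (Nat.le_add_left _ _)).1
    have h1 : oo x (w' n) 0 = ((‖c (n + n₀)‖ : ℝ) : ℂ) := by
      have h0 : oo x (w' n) 0 = u (n + n₀) * c (n + n₀) := oo_smul_right _ _ _ _
      rw [h0]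
      have h1 : ((‖c (n + n₀)‖ : ℝ) : ℂ) ≠ 0 := by
        exact_mod_cast (norm_ne_zero_iff.mpr hcn)
      have h3 := Complex.mul_conj (c (n + n₀))
      rw [Complex.normSq_eq_norm_sq] at h3
      have h4 : c (n + n₀) * star (c (n + n₀)) = ((‖c (n + n₀)‖ ^ 2 : ℝ) : ℂ) := h3
      simp only [hu]
      rw [div_mul_eq_mul_div, div_eq_iff h1, mul_comm, h4]
      push_cast
      ring
    rw [h1]
    exact Complex.conj_ofReal _
  -- normalisation
  set t : ℕ → ℝ := fun n => Real.sqrt (nrm (w' n - x)) with ht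
  have hnpos : ∀ n, 0 < nrm (w' n - x) := by
    intro n
    obtain ⟨r, hr⟩ := Function.ne_iff.mp (hw'ne n)
    exact Finset.sum_pos' (fun s _ => Complex.normSq_nonneg _)
      ⟨r, Finset.mem_univ r, Complex.normSq_pos.mpr hr⟩
  have htpos : ∀ n, 0 < t n := fun n => Real.sqrt_pos.mpr (hnpos n)
  have ht0 : Tendsto t atTop (𝓝 0) := by
    have h1 : Tendsto (fun n => nrm (w' n - x)) atTop (𝓝 (nrm (x - x))) :=
      (continuous_nrm.tendsto _).comp (hw'1.sub_const x)
    have h2 : nrm (x - x) = 0 := by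
      unfold nrm
      simp
    rw [h2] at h1
    have h3 := (Real.continuous_sqrt.tendsto 0).comp h1
    rw [Real.sqrt_zero] at h3
    exact h3
  set ζ : ℕ → A → ℂ := fun n => ((t n : ℂ))⁻¹ • (w' n - x) with hζ
  have htc : ∀ n, (t n : ℂ) ≠ 0 := fun n => by exact_mod_cast (htpos n).ne'
  have hstar : ∀ n, star ((t n : ℂ))⁻¹ = ((t n : ℂ))⁻¹ := by
    intro n
    rw [star_inv₀]
    congr 1
    exact Complex.conj_ofReal _
  have hζ1 : ∀ n, oo (ζ n) (ζ n) 0 = 1 := by
    intro n
    simp only [hζ]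
    rw [oo_smul_left, oo_smul_right, oo_self_zero, hstar]
    have h1 : ((nrm (w' n - x) : ℝ) : ℂ) = (t n : ℂ) * (t n : ℂ) := by
      rw [← Complex.ofReal_mul, Real.mul_self_sqrt (hnpos n).le]
    rw [h1]
    field_simp [htc n]
  have hζn : ∀ n, nrm (ζ n) = 1 := by
    intro n
    have h1 := oo_self_zero (ζ n)
    rw [hζ1 n] at h1
    exact_mod_cast h1.symm
  obtain ⟨z', _, ψ, hψ, hz'⟩ := isCompact_nrm.tendsto_subseq hζn
  refine ⟨x, fun n => t (ψ n), fun n => ζ (ψ n), z', hx', fun n => htpos _,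
    ht0.comp hψ.tendsto_atTop, hz', fun n => ?_, fun n => hζ1 _, fun n => ?_⟩
  · have h1 : x + ((t (ψ n) : ℝ) : ℂ) • ζ (ψ n) = w' (ψ n) := by
      simp only [hζ]
      rw [smul_smul, mul_inv_cancel₀ (htc _), one_smul, add_sub_cancel]
    rw [h1]
    exact hw'fid _
  · have h1 : oo x (ζ (ψ n)) 0 = ((t (ψ n) : ℂ))⁻¹ * (oo x (w' (ψ n)) 0 - 1) := by
      simp only [hζ]
      rw [oo_smul_right, sub_eq_add_neg, oo_add_right]
      have h2 : oo x (-x) 0 = - oo x x 0 := by
        have := oo_smul_right (-1) x x 0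
        simpa using this
      rw [h2, hxx]
      ring
    simp only
    rw [h1, star_mul', hstar, star_sub, hw're, star_one]

section identities

variable {x z : A → ℂ}


theorem hN0 : (Fintype.card A : ℂ) ≠ 0 := by exact_mod_cast Fintype.card_ne_zero

theorem hN1 : (Fintype.card A : ℂ) + 1 ≠ 0 := by
  have h1 : ((Fintype.card A + 1 : ℕ) : ℂ) ≠ 0 := by
    exact_mod_cast Nat.succ_ne_zero (Fintype.card A)
  rw [Nat.cast_add, Nat.cast_one] at h1
  exact h1

theorem eps_eq (h : PS A) : eps A ℂ h = 1 + if h = 0 then (Fintype.card A : ℂ) else 0 := by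
  unfold eps
  split_ifs <;> ring

theorem eps_neg (h : PS A) : eps A ℂ (-h) = eps A ℂ h := by
  unfold eps
  simp only [neg_eq_zero]

theorem ff (hx : Fid x) (h : PS A) : ((Fintype.card A : ℂ) + 1) * (oo x x h * oo x x (-h)) = eps A ℂ h := hx.mul h

theorem f_ne (hx : Fid x) (h : PS A) : oo x x h ≠ 0 := ov_ne_zero iC posStar_complex hx h

/-- Logarithmic derivative. -/
noncomputable def aa (x z : A → ℂ) (h : PS A) : ℂ := oo x z h / oo x x h

theorem oo_eq (hx : Fid x) (z : A → ℂ) (h : PS A) : oo x z h = aa x z h * oo x x h :=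
  (div_mul_cancel₀ _ (f_ne hx h)).symm

theorem aa_zero (h0 : oo x z 0 = 0) : aa x z 0 = 0 := by
  unfold aa
  rw [h0, zero_div]

theorem aa_neg (hx : Fid x) (h0 : oo x z 0 = 0)
    (ht : Tangent iC (fun r => star (x r)) x (fun r => star (z r)) z) (h : PS A) :
    aa x z (-h) = - aa x z h := by
  have h1 : oo x z h * oo x x (-h) + oo x z (-h) * oo x x h = 0 :=
    rigid_core iC posStar_complex hx z h0 ht h
  rw [oo_eq hx z, oo_eq hx z] at h1
  have h2 : (oo x x h * oo x x (-h)) * (aa x z (-h) + aa x z h) = 0 := by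
    linear_combination h1
  have h3 := (mul_eq_zero.mp h2).resolve_left (mul_ne_zero (f_ne hx h) (f_ne hx (-h)))
  linear_combination h3

theorem oo_eq' (hx : Fid x) (h0 : oo x z 0 = 0)
    (ht : Tangent iC (fun r => star (x r)) x (fun r => star (z r)) z) (h : PS A) :
    oo z x h = - star (aa x z h) * oo x x h := by
  have h1 := star_oo x z (-h)
  rw [neg_neg, oo_eq hx z, star_mul', star_oo, neg_neg, aa_neg hx h0 ht, star_neg] at h1
  rw [← h1]

/-- The squared modulus. -/
noncomputable def ss (x z : A → ℂ) (h : PS A) : ℂ := aa x z h * star (aa x z h)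

/-- The normalised overlap of the tangent vector. -/
noncomputable def mm (x z : A → ℂ) (h : PS A) : ℂ := ((Fintype.card A : ℂ) + 1) * (oo z z h * oo x x (-h))

theorem aa_eps (h0 : oo x z 0 = 0) (h : PS A) : aa x z h * eps A ℂ h = aa x z h := by
  rw [eps_eq]
  split_ifs with h1
  · rw [h1, aa_zero h0]
    ring
  · ring

theorem ss_eps (h0 : oo x z 0 = 0) (h : PS A) : ss x z h * eps A ℂ h = ss x z h := by
  unfold ss
  have := aa_eps h0 h
  linear_combination (star (aa x z h)) * this

theorem ss_neg (hx : Fid x) (h0 : oo x z 0 = 0)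
    (ht : Tangent iC (fun r => star (x r)) x (fun r => star (z r)) z) (h : PS A) :
    ss x z (-h) = ss x z h := by
  unfold ss
  rw [aa_neg hx h0 ht, star_neg]
  ring

theorem G_ss (hx : Fid x) (h0 : oo x z 0 = 0)
    (ht : Tangent iC (fun r => star (x r)) x (fun r => star (z r)) z) (k : PS A) :
    G iC (ss x z) k = (Fintype.card A : ℂ) * mm x z k := by
  have h1 : G iC (fun h => oo z x h * oo x z (-h)) k = (Fintype.card A : ℂ) * (oo z z k * oo x x (-k)) :=
    duality iC _ _ _ _ k
  have h2 : (fun h => ((Fintype.card A : ℂ) + 1) * (oo z x h * oo x z (-h))) = ss x z := by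
    funext h
    rw [oo_eq' hx h0 ht, oo_eq hx z, aa_neg hx h0 ht]
    have e1 := ff hx h
    have e2 := ss_eps h0 h
    unfold ss at e2 ⊢
    linear_combination (aa x z h * star (aa x z h)) * e1 + e2
  rw [← h2, G_smul, h1]
  unfold mm
  ring

theorem mm_neg (hx : Fid x) (h0 : oo x z 0 = 0)
    (ht : Tangent iC (fun r => star (x r)) x (fun r => star (z r)) z) (k : PS A) :
    mm x z (-k) = mm x z k := by
  have h1 := G_ss hx h0 ht k
  have h2 := G_ss hx h0 ht (-k)
  rw [← G_neg_arg] at h2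
  have h3 : (fun h => ss x z (-h)) = ss x z := funext fun h => ss_neg hx h0 ht h
  rw [h3, h1] at h2
  exact (mul_left_cancel₀ hN0 h2).symm

theorem G_mm (hx : Fid x) (h0 : oo x z 0 = 0)
    (ht : Tangent iC (fun r => star (x r)) x (fun r => star (z r)) z) (k : PS A) :
    G iC (mm x z) k = (Fintype.card A : ℂ) * ss x z k := by
  have h1 := G_G iC (ss x z) k
  have h2 : G iC (ss x z) = fun k => (Fintype.card A : ℂ) * mm x z k := funext fun k => G_ss hx h0 ht k
  rw [h2, G_smul] at h1
  apply mul_left_cancel₀ (hN0 (A := A))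
  rw [h1]
  ring

theorem G_aa (hx : Fid x) (h0 : oo x z 0 = 0)
    (ht : Tangent iC (fun r => star (x r)) x (fun r => star (z r)) z) (k : PS A) :
    G iC (aa x z) k = - ((Fintype.card A : ℂ) * aa x z k) := by
  have h1 : G iC (fun h => oo x z h * oo x x (-h)) k = (Fintype.card A : ℂ) * (oo x x k * oo x z (-k)) :=
    duality iC _ _ _ _ k
  have h2 : (fun h => ((Fintype.card A : ℂ) + 1) * (oo x z h * oo x x (-h))) = aa x z := by
    funext h
    rw [oo_eq hx z]
    have e1 := ff hx h
    have e2 := aa_eps h0 h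
    linear_combination (aa x z h) * e1 + e2
  rw [← h2, G_smul, h1, h2, oo_eq hx z, aa_neg hx h0 ht]
  have e1 := ff hx k
  have e2 := aa_eps h0 k
  linear_combination (-((Fintype.card A : ℂ) * aa x z k)) * e1 - (Fintype.card A : ℂ) * e2

theorem mm_zero (hx : Fid x) (h1 : oo z z 0 = 1) : mm x z 0 = (Fintype.card A : ℂ) + 1 := by
  have h2 : oo x x 0 = 1 := hx.zero
  unfold mm
  rw [neg_zero, h1, h2]
  ring

theorem sum_ss (hx : Fid x) (h0 : oo x z 0 = 0) (h1 : oo z z 0 = 1)
    (ht : Tangent iC (fun r => star (x r)) x (fun r => star (z r)) z) :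
    ∑ h, ss x z h = (Fintype.card A : ℂ) * ((Fintype.card A : ℂ) + 1) := by
  rw [← G_zero_apply iC, G_ss hx h0 ht, mm_zero hx h1]

theorem sum_eps_mul (g : PS A → ℂ) :
    ∑ h, eps A ℂ h * g h = ∑ h, g h + (Fintype.card A : ℂ) * g 0 := by
  have h1 : ∀ h : PS A, eps A ℂ h * g h = g h + if h = 0 then (Fintype.card A : ℂ) * g 0 else 0 := by
    intro h
    rw [eps_eq]
    split_ifs with h2
    · rw [h2]; ring
    · ring
  rw [Finset.sum_congr rfl fun h _ => h1 h, Finset.sum_add_distrib,
    Finset.sum_ite_eq' Finset.univ (0 : PS A), if_pos (Finset.mem_univ _)]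

theorem sum_mm_sq (hx : Fid x) (h0 : oo x z 0 = 0) (h1 : oo z z 0 = 1)
    (ht : Tangent iC (fun r => star (x r)) x (fun r => star (z r)) z) :
    ∑ h, mm x z h * mm x z h = 2 * (Fintype.card A : ℂ) * ((Fintype.card A : ℂ) + 1) := by
  have h2 : G iC (fun h => oo z z h * oo z z (-h)) 0 = (Fintype.card A : ℂ) * (oo z z 0 * oo z z (-0)) :=
    duality iC _ _ _ _ 0
  rw [G_zero_apply, neg_zero, h1] at h2
  have h3 : ∀ h, mm x z h * mm x z h = ((Fintype.card A : ℂ) + 1) * (eps A ℂ h * (oo z z h * oo z z (-h))) := by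
    intro h
    calc mm x z h * mm x z h = mm x z h * mm x z (-h) := by rw [mm_neg hx h0 ht]
      _ = _ := by
        unfold mm
        rw [neg_neg]
        have e1 := ff hx h
        linear_combination (((Fintype.card A : ℂ) + 1) * (oo z z h * oo z z (-h))) * e1
  rw [Finset.sum_congr rfl fun h _ => h3 h, ← Finset.mul_sum, sum_eps_mul, h2, neg_zero, h1]
  ring

theorem sum_ss_sq (hx : Fid x) (h0 : oo x z 0 = 0) (h1 : oo z z 0 = 1)
    (ht : Tangent iC (fun r => star (x r)) x (fun r => star (z r)) z) :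
    ∑ h, ss x z h * ss x z h = 2 * (Fintype.card A : ℂ) * ((Fintype.card A : ℂ) + 1) := by
  have h2 := parseval iC (ss x z) (ss x z)
  have h3 : ∀ k, G iC (ss x z) k * G iC (ss x z) (-k) = (Fintype.card A : ℂ) ^ 2 * (mm x z k * mm x z k) := by
    intro k
    rw [G_ss hx h0 ht, G_ss hx h0 ht, mm_neg hx h0 ht]
    ring
  rw [Finset.sum_congr rfl fun k _ => h3 k, ← Finset.mul_sum, sum_mm_sq hx h0 h1 ht] at h2
  exact (mul_left_cancel₀ (pow_ne_zero 2 hN0) h2).symm

theorem sum_mm_ss (hx : Fid x) (h0 : oo x z 0 = 0)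
    (ht : Tangent iC (fun r => star (x r)) x (fun r => star (z r)) z) :
    ∑ h, mm x z h * ss x z h = 0 := by
  have h2 : ∀ k, G iC (fun h => mm x z h * star (aa x z h)) k =
      - ((Fintype.card A : ℂ) * (mm x z k * star (aa x z k))) := by
    intro k
    have h1 : G iC (fun h => oo z z h * oo z x (-h)) k = (Fintype.card A : ℂ) * (oo z x k * oo z z (-k)) :=
      duality iC _ _ _ _ k
    have h2 : (fun h => ((Fintype.card A : ℂ) + 1) * (oo z z h * oo z x (-h))) =
        fun h => mm x z h * star (aa x z h) := by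
      funext h
      rw [oo_eq' hx h0 ht, aa_neg hx h0 ht, star_neg]
      unfold mm
      ring
    rw [← h2, G_smul, h1, oo_eq' hx h0 ht, ← mm_neg hx h0 ht k]
    unfold mm
    rw [neg_neg]
    ring
  have h3 := parseval iC (fun h => mm x z h * star (aa x z h)) (aa x z)
  have h4 : ∀ k, G iC (fun h => mm x z h * star (aa x z h)) k * G iC (aa x z) (-k) =
      - ((Fintype.card A : ℂ) ^ 2 * (mm x z k * ss x z k)) := by
    intro k
    rw [h2, G_aa hx h0 ht, aa_neg hx h0 ht]
    unfold ss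
    ring
  have h5 : ∀ k, mm x z k * star (aa x z k) * aa x z k = mm x z k * ss x z k := by
    intro k
    unfold ss
    ring
  rw [Finset.sum_congr rfl fun k _ => h4 k, Finset.sum_neg_distrib, ← Finset.mul_sum] at h3
  rw [Finset.sum_congr rfl fun k _ => h5 k] at h3
  have h6 : (2 * (Fintype.card A : ℂ) ^ 2) * ∑ k, mm x z k * ss x z k = 0 := by
    linear_combination -h3
  exact (mul_eq_zero.mp h6).resolve_left (mul_ne_zero two_ne_zero (pow_ne_zero 2 hN0))

/-- The test identity. -/
theorem sum_test (hx : Fid x) (h0 : oo x z 0 = 0) (h1 : oo z z 0 = 1)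
    (ht : Tangent iC (fun r => star (x r)) x (fun r => star (z r)) z) (w : A → ℂ) :
    ((Fintype.card A : ℂ) + 1) * ∑ h, ss x z h * (oo w x (-h) * oo x x h) = (Fintype.card A : ℂ) * ((Fintype.card A : ℂ) + 1) * oo w x 0 := by
  have hzx : oo z x 0 = 0 := by
    rw [oo_eq' hx h0 ht, aa_zero h0, star_zero]
    ring
  have e1 : G iC (fun h => oo w x h * oo z z (-h)) 0 = (Fintype.card A : ℂ) * (oo w z 0 * oo z x (-0)) :=
    duality iC _ _ _ _ 0
  rw [G_zero_apply, neg_zero, hzx, mul_zero, mul_zero] at e1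
  have e2 : ∀ k, G iC (fun h => oo w x h * oo x x (-h)) k = (Fintype.card A : ℂ) * (oo w x k * oo x x (-k)) :=
    fun k => duality iC _ _ _ _ k
  have e3 := parseval iC (mm x z) (fun h => oo w x h * oo x x (-h))
  have e4 : ∀ k, G iC (mm x z) k * G iC (fun h => oo w x h * oo x x (-h)) (-k) =
      (Fintype.card A : ℂ) ^ 2 * (ss x z k * (oo w x (-k) * oo x x k)) := by
    intro k
    rw [G_mm hx h0 ht, e2, neg_neg]
    ring
  rw [Finset.sum_congr rfl fun k _ => e4 k, ← Finset.mul_sum] at e3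
  have e5 := mul_left_cancel₀ (pow_ne_zero 2 hN0) e3
  have e6 : ∀ h, mm x z h * (oo w x h * oo x x (-h)) =
      eps A ℂ h * (oo w x h * oo z z (-h)) := by
    intro h
    calc mm x z h * (oo w x h * oo x x (-h)) = mm x z (-h) * (oo w x h * oo x x (-h)) := by
          rw [mm_neg hx h0 ht]
      _ = _ := by
        unfold mm
        rw [neg_neg]
        have := ff hx h
        linear_combination (oo w x h * oo z z (-h)) * this
  rw [e5, Finset.sum_congr rfl fun h _ => e6 h, sum_eps_mul, e1, neg_zero, h1]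
  ring

end identities

section limit


/-- The linear part of the expansion. -/
noncomputable def LL (x z : A → ℂ) (h : PS A) : ℂ := oo z x h + oo x z h

theorem expand (x z : A → ℂ) (t : ℝ) (h : PS A) :
    oo (x + (t : ℂ) • z) (x + (t : ℂ) • z) h =
      oo x x h + (t : ℂ) * LL x z h + (t : ℂ) ^ 2 * oo z z h := by
  have h1 : star (t : ℂ) = (t : ℂ) := Complex.conj_ofReal t
  rw [oo_add_left, oo_add_right, oo_add_right, oo_smul_left, oo_smul_left, oo_smul_right,
    oo_smul_right, h1]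
  unfold LL
  ring

/-- First order term. -/
noncomputable def EE (x z : A → ℂ) (h : PS A) : ℂ :=
  LL x z h * oo x x (-h) + oo x x h * LL x z (-h)

/-- The remaining terms. -/
noncomputable def RR (x z : A → ℂ) (t : ℂ) (h : PS A) : ℂ :=
  oo z z h * oo x x (-h) + oo x x h * oo z z (-h) + LL x z h * LL x z (-h) +
    t * (LL x z h * oo z z (-h) + oo z z h * LL x z (-h)) + t ^ 2 * (oo z z h * oo z z (-h))

theorem EE_RR {x z : A → ℂ} (hx : Fid x) {t : ℝ} (ht : 0 < t) (hxt : Fid (x + (t : ℂ) • z))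
    (h : PS A) : EE x z h + (t : ℂ) * RR x z t h = 0 := by
  have h1 := ff hx h
  have h2 := ff hxt h
  rw [expand, expand, ← h1] at h2
  have ht' : (t : ℂ) ≠ 0 := by exact_mod_cast ht.ne'
  have h3 : (((Fintype.card A : ℂ) + 1) * (t : ℂ)) * (EE x z h + (t : ℂ) * RR x z t h) = 0 := by
    unfold EE RR
    linear_combination h2
  exact (mul_eq_zero.mp h3).resolve_left (mul_ne_zero hN1 ht')

/-- **The jet at an accumulation point.** -/
theorem exists_jet_of_infinite (hinf : {P : A → A → ℂ | ∃ x : A → ℂ, Fid x ∧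
      P = fun r s => star (x r) * x s}.Infinite) : ∃ x z : A → ℂ, Jet iC x z := by
  obtain ⟨x, τ, z, z', hx, hτ, hτ0, hz, hfid, hzz, hre⟩ := exists_seq hinf
  have hτc : ∀ n, (τ n : ℂ) ≠ 0 := fun n => by exact_mod_cast (hτ n).ne'
  have hτ1 : Tendsto (fun n => (τ n : ℂ)) atTop (𝓝 0) := by
    have h1 := (Complex.continuous_ofReal.tendsto 0).comp hτ0
    rw [Complex.ofReal_zero] at h1
    exact h1
  have hx0 : Tendsto (fun _ : ℕ => x) atTop (𝓝 x) := tendsto_const_nhds
  have hQ : ∀ h, Tendsto (fun n => oo (z n) (z n) h) atTop (𝓝 (oo z' z' h)) :=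
    fun h => tendsto_oo hz hz h
  have hL : ∀ h, Tendsto (fun n => LL x (z n) h) atTop (𝓝 (LL x z' h)) :=
    fun h => (tendsto_oo hz hx0 h).add (tendsto_oo hx0 hz h)
  have hL0 : ∀ n, LL x (z n) 0 = -(τ n : ℂ) := by
    intro n
    have h1 : oo (x + (τ n : ℂ) • z n) (x + (τ n : ℂ) • z n) 0 = 1 := (hfid n).zero
    have h2 : oo x x 0 = 1 := hx.zero
    rw [expand, hzz n, h2] at h1
    apply mul_left_cancel₀ (hτc n)
    linear_combination h1
  have hperp : oo x z' 0 = 0 := by
    have h1 : ∀ n, oo x (z n) 0 = -(τ n : ℂ) / 2 := by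
      intro n
      have h2 := hre n
      rw [star_oo, neg_zero] at h2
      have h3 := hL0 n
      unfold LL at h3
      rw [h2] at h3
      linear_combination h3 / 2
    have h2 : Tendsto (fun n => oo x (z n) 0) atTop (𝓝 (oo x z' 0)) := tendsto_oo hx0 hz 0
    have h3 : Tendsto (fun n => oo x (z n) 0) atTop (𝓝 (-0 / 2)) := by
      have h4 : (fun n => oo x (z n) 0) = fun n => -(τ n : ℂ) / 2 := funext h1
      rw [h4]
      exact (hτ1.neg).div_const 2
    have h5 := tendsto_nhds_unique h2 h3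
    rw [h5]
    simp
  have hunit : oo z' z' 0 = 1 := by
    have h1 := hQ 0
    have h2 : (fun n => oo (z n) (z n) 0) = fun _ => (1 : ℂ) := funext hzz
    rw [h2] at h1
    exact (tendsto_nhds_unique tendsto_const_nhds h1).symm
  have hR : ∀ h, Tendsto (fun n => RR x (z n) (τ n) h) atTop (𝓝 (RR x z' 0 h)) := by
    intro h
    unfold RR
    exact (((((hQ h).mul_const _).add ((hQ (-h)).const_mul _)).add ((hL h).mul (hL (-h)))).add
      (hτ1.mul (((hL h).mul (hQ (-h))).add ((hQ h).mul (hL (-h)))))).add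
      ((hτ1.pow 2).mul ((hQ h).mul (hQ (-h))))
  have hER : ∀ n h, EE x (z n) h = -((τ n : ℂ) * RR x (z n) (τ n) h) := by
    intro n h
    have := EE_RR hx (hτ n) (hfid n) h
    linear_combination this
  have hE : ∀ h, EE x z' h = 0 := by
    intro h
    have h1 : Tendsto (fun n => EE x (z n) h) atTop (𝓝 (EE x z' h)) := by
      unfold EE
      exact ((hL h).mul_const _).add ((hL (-h)).const_mul _)
    have h2 : Tendsto (fun n => EE x (z n) h) atTop (𝓝 (-(0 * RR x z' 0 h))) := by
      have h3 : (fun n => EE x (z n) h) = fun n => -((τ n : ℂ) * RR x (z n) (τ n) h) :=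
        funext fun n => hER n h
      rw [h3]
      exact (hτ1.mul (hR h)).neg
    have h4 := tendsto_nhds_unique h1 h2
    rw [h4]
    ring
  have ht : Tangent iC (fun r => star (x r)) x (fun r => star (z' r)) z' := hE
  -- the test
  have hsstar : ∀ h, star (ss x z' h) = ss x z' h := by
    intro h
    unfold ss
    rw [star_mul', star_star, mul_comm]
  have htest : ∀ w : A → ℂ, ((Fintype.card A : ℂ) + 1) * ∑ h, ss x z' h * EE x w h =
      2 * (Fintype.card A : ℂ) * ((Fintype.card A : ℂ) + 1) * LL x w 0 := by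
    intro w
    have h1 := sum_test hx hperp hunit ht w
    have h2 := congrArg star h1
    rw [star_mul', star_sum, star_mul', star_oo, neg_zero] at h2
    have hsN : star (Fintype.card A : ℂ) = (Fintype.card A : ℂ) := Complex.conj_natCast _
    have hsN1 : star ((Fintype.card A : ℂ) + 1) = (Fintype.card A : ℂ) + 1 := by rw [star_add, hsN, star_one]
    rw [hsN1, star_mul', hsN, hsN1] at h2
    have h3 : ∀ h, star (ss x z' h * (oo w x (-h) * oo x x h)) =
        ss x z' h * (oo x w h * oo x x (-h)) := by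
      intro h
      rw [star_mul', star_mul', hsstar, star_oo, star_oo, neg_neg]
    rw [Finset.sum_congr rfl fun h _ => h3 h] at h2
    have h4 : ∑ h, ss x z' h * (oo w x h * oo x x (-h)) =
        ∑ h, ss x z' h * (oo w x (-h) * oo x x h) := by
      rw [← Equiv.sum_comp (Equiv.neg (PS A))]
      refine Finset.sum_congr rfl fun h _ => ?_
      simp only [Equiv.neg_apply, neg_neg]
      rw [ss_neg hx hperp ht]
    have h5 : ∑ h, ss x z' h * (oo x w (-h) * oo x x h) =
        ∑ h, ss x z' h * (oo x w h * oo x x (-h)) := by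
      rw [← Equiv.sum_comp (Equiv.neg (PS A))]
      refine Finset.sum_congr rfl fun h _ => ?_
      simp only [Equiv.neg_apply, neg_neg]
      rw [ss_neg hx hperp ht]
    have h6 : ∑ h, ss x z' h * EE x w h =
        ∑ h, ss x z' h * (oo w x h * oo x x (-h)) + ∑ h, ss x z' h * (oo x w h * oo x x (-h)) +
        (∑ h, ss x z' h * (oo w x (-h) * oo x x h) +
          ∑ h, ss x z' h * (oo x w (-h) * oo x x h)) := by
      rw [← Finset.sum_add_distrib, ← Finset.sum_add_distrib, ← Finset.sum_add_distrib]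
      refine Finset.sum_congr rfl fun h _ => ?_
      unfold EE LL
      ring
    rw [h6, h4, h5]
    unfold LL
    linear_combination 2 * h1 + 2 * h2
  have hlim : ((Fintype.card A : ℂ) + 1) * ∑ h, ss x z' h * RR x z' 0 h = 2 * (Fintype.card A : ℂ) * ((Fintype.card A : ℂ) + 1) := by
    have h1 : ∀ n, ((Fintype.card A : ℂ) + 1) * ∑ h, ss x z' h * RR x (z n) (τ n) h = 2 * (Fintype.card A : ℂ) * ((Fintype.card A : ℂ) + 1) := by
      intro n
      have h2 := htest (z n)
      rw [hL0 n] at h2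
      have h3 : ∑ h, ss x z' h * EE x (z n) h =
          -((τ n : ℂ) * ∑ h, ss x z' h * RR x (z n) (τ n) h) := by
        rw [Finset.mul_sum, ← Finset.sum_neg_distrib]
        refine Finset.sum_congr rfl fun h _ => ?_
        rw [hER n h]
        ring
      rw [h3] at h2
      apply mul_left_cancel₀ (hτc n)
      linear_combination -h2
    have h2 : Tendsto (fun n => ((Fintype.card A : ℂ) + 1) * ∑ h, ss x z' h * RR x (z n) (τ n) h) atTop
        (𝓝 (((Fintype.card A : ℂ) + 1) * ∑ h, ss x z' h * RR x z' 0 h)) :=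
      (tendsto_finsetSum _ fun h _ => (hR h).const_mul _).const_mul _
    have h3 : (fun n => ((Fintype.card A : ℂ) + 1) * ∑ h, ss x z' h * RR x (z n) (τ n) h) =
        fun _ => 2 * (Fintype.card A : ℂ) * ((Fintype.card A : ℂ) + 1) := funext h1
    rw [h3] at h2
    exact (tendsto_nhds_unique tendsto_const_nhds h2).symm
  have hsum : ∀ h, ((Fintype.card A : ℂ) + 1) * (ss x z' h * RR x z' 0 h) = 2 * (mm x z' h * ss x z' h) -
      (aa x z' h ^ 2 + star (aa x z' h) ^ 2) * ss x z' h + 2 * (ss x z' h * ss x z' h) := by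
    intro h
    have e1 := mm_neg hx hperp ht h
    have e2 : LL x z' h = (aa x z' h - star (aa x z' h)) * oo x x h := by
      unfold LL
      rw [oo_eq' hx hperp ht, oo_eq hx z']
      ring
    have e3 : LL x z' (-h) = -(aa x z' h - star (aa x z' h)) * oo x x (-h) := by
      unfold LL
      rw [oo_eq' hx hperp ht, oo_eq hx z', aa_neg hx hperp ht, star_neg]
      ring
    have e4 := ff hx h
    have e5 := ss_eps hperp h
    have e6 : ss x z' h = aa x z' h * star (aa x z' h) := rfl
    have e7 : ((Fintype.card A : ℂ) + 1) * RR x z' 0 h = mm x z' h + mm x z' (-h) +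
        ((Fintype.card A : ℂ) + 1) * (LL x z' h * LL x z' (-h)) := by
      unfold RR mm
      rw [neg_neg]
      ring
    have e8 : ((Fintype.card A : ℂ) + 1) * (LL x z' h * LL x z' (-h)) =
        -(aa x z' h - star (aa x z' h)) ^ 2 * eps A ℂ h := by
      rw [e2, e3, ← e4]
      ring
    calc ((Fintype.card A : ℂ) + 1) * (ss x z' h * RR x z' 0 h) = ss x z' h * (((Fintype.card A : ℂ) + 1) * RR x z' 0 h) := by ring
      _ = ss x z' h * (2 * mm x z' h) -
          (aa x z' h - star (aa x z' h)) ^ 2 * (ss x z' h * eps A ℂ h) := by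
        rw [e7, e8, e1]
        ring
      _ = _ := by
        rw [e5]
        linear_combination (-2 * ss x z' h) * e6
  rw [Finset.mul_sum, Finset.sum_congr rfl fun h _ => hsum h, Finset.sum_add_distrib,
    Finset.sum_sub_distrib, ← Finset.mul_sum, ← Finset.mul_sum, sum_mm_ss hx hperp ht,
    sum_ss_sq hx hperp hunit ht] at hlim
  refine ⟨x, z', hx, hperp, hunit, ht, ?_⟩
  have h1 : ∑ h, (aa x z' h ^ 2 + star (aa x z' h) ^ 2) * ss x z' h = 2 * (Fintype.card A : ℂ) * ((Fintype.card A : ℂ) + 1) := by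
    linear_combination -hlim
  exact h1

end limit

end Pool.Agent.SicCi
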