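import Pool.Agent.Lib.MP_d0f9e0_co.Ci.Core

/-!
# The projection identity

For the parabolic set `T` of a jet the operator attached to the indicator function of `T` is a
partial isometry of square zero; this gives the two twisted convolution identities.
-/

set_option autoImplicit false
set_option linter.unusedSectionVars false

namespace Pool.Agent.SicCi

open Finset Pool.Agent.SicAb

variable {A : Type} [AddCommGroup A] [Fintype A] [DecidableEq A]
variable {K : Type*} [Field K] [StarRing K]

section shift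

/-- The left vector moved by a displacement. -/
noncomputable def Sh (ι : Bz →+* K) (s : PS A) (y : A → K) (r : A) : K :=
  y (r - s.1) * ι (ch s.2 (r - s.1))

/-- The phase of the shift. -/
noncomputable def ph (ι : Bz →+* K) (s h : PS A) : K :=
  ι (sqz (ch h.2 h.1)) * ι (ch h.2 (-s.1)) * (ι (sqz (ch (s - h).2 (s - h).1)))⁻¹

theorem sqz_ch_ne (χ : AddChar A ℂ) (u : A) : sqz (ch χ u) ≠ 0 := by
  intro h
  have h1 := sqz_mul (ch χ u)
  rw [h, mul_zero] at h1
  exact ch_ne_zero χ u h1.symm

theorem ov_Sh (ι : Bz →+* K) (s : PS A) (y x : A → K) (h : PS A) :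
    ov ι (Sh ι s y) x (-h) = ph ι s h * ov ι y x (s - h) := by
  have h0 : ι (sqz (ch (s - h).2 (s - h).1)) ≠ 0 := by
    rw [Ne, map_eq_zero]
    exact sqz_ch_ne _ _
  rw [ov_neg, ov_def]
  unfold ph
  have e1 : ∑ t, Sh ι s y (t + h.1) * ι (ch h.2 (-t)) * x t =
      ι (ch h.2 (h.1 - s.1)) * ∑ r, y r * ι (ch (s - h).2 r) * x (r + (s - h).1) := by
    rw [Finset.mul_sum, ← Equiv.sum_comp (Equiv.addRight (s.1 - h.1))]
    apply Finset.sum_congr rfl
    intro r _
    simp only [Equiv.coe_addRight]
    unfold Sh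
    have e2 : r + (s.1 - h.1) + h.1 - s.1 = r := by abel
    have e3 : r + (s - h).1 = r + (s.1 - h.1) := rfl
    rw [e2, e3]
    have e4 : ι (ch s.2 r) * ι (ch h.2 (-(r + (s.1 - h.1)))) =
        ι (ch h.2 (h.1 - s.1)) * ι (ch (s - h).2 r) := by
      rw [← map_mul, ← map_mul]
      congr 1
      have e5 : ch (s - h).2 r = ch s.2 r * ch h.2 (-r) := by
        rw [Prod.snd_sub, sub_eq_add_neg, ch_add_left, ch_neg_left]
      have e6 : -(r + (s.1 - h.1)) = (-r) + (h.1 - s.1) := by abel
      rw [e5, e6, ch_add]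
      ring
    linear_combination (y r * x (r + (s.1 - h.1))) * e4
  rw [e1]
  have e7 : ι (ch h.2 (-h.1)) * ι (ch h.2 (h.1 - s.1)) = ι (ch h.2 (-s.1)) := by
    rw [← map_mul, ← ch_add]
    congr 2
    abel
  field_simp
  linear_combination (ι (sqz (ch h.2 h.1)) *
    ∑ t, y t * ι (ch (s - h).2 t) * x (t + (s - h).1)) * e7

theorem star_ph (hpos : PosStar K) (ι : Bz →+* K) (s h : PS A) :
    star (ph ι s h) * ph ι s h = 1 := by
  have h2 : ∀ (χ : AddChar A ℂ) (u : A), star (ι (sqz (ch χ u))) * ι (sqz (ch χ u)) = 1 := by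
    intro χ u
    have hm : 2 * Fintype.card A ≠ 0 := by
      have := Fintype.card_ne_zero (α := A)
      omega
    exact star_mul_of_pow hpos ι hm (by rw [pow_mul, sq, sqz_mul, ch_pow_card])
  have h3 : ∀ (χ : AddChar A ℂ) (u : A), star (ι (ch χ u)) * ι (ch χ u) = 1 := fun χ u =>
    star_mul_of_pow hpos ι (Fintype.card_ne_zero (α := A)) (ch_pow_card χ u)
  unfold ph
  rw [star_mul', star_mul', star_inv₀]
  have e1 := h2 h.2 h.1
  have e2 := h3 h.2 (-s.1)
  have e3 := h2 (s - h).2 (s - h).1
  have h0 : ι (sqz (ch (s - h).2 (s - h).1)) ≠ 0 := by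
    rw [Ne, map_eq_zero]
    exact sqz_ch_ne _ _
  have h0' : star (ι (sqz (ch (s - h).2 (s - h).1))) ≠ 0 := by
    intro h4
    rw [h4, zero_mul] at e3
    exact zero_ne_one e3
  field_simp
  linear_combination e1 * (star (ι (ch h.2 (-s.1))) * ι (ch h.2 (-s.1))) + e2 - e3

end shift

section tw

/-- The twisted sum of the squared modulus of a function with a known transform. -/
theorem tw_sum (hpos : PosStar K) (ι : Bz →+* K) (s : PS A) (u v : PS A → K)
    (huv : ∀ k, G ι u k = (Fintype.card A : K) * v k)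
    (hv : ∀ k, v (k + s) * star (v k) = 0) :
    ∑ h, ι (pr s h) * (u h * star (u h)) = 0 := by
  have h1 := parseval ι (fun h => ι (pr s h) * u h) (fun h => star (u h))
  have h2 : ∀ k, G ι (fun h => ι (pr s h) * u h) k = (Fintype.card A : K) * v (k + s) := by
    intro k
    rw [← huv]
    unfold G
    apply Finset.sum_congr rfl
    intro h _
    rw [pr_add_left, map_mul]
    ring
  have h3 : ∀ k, G ι (fun h => star (u h)) (-k) = (Fintype.card A : K) * star (v k) := by
    intro k
    rw [← star_G hpos, huv, star_mul', star_natCast]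
  have h4 : ∀ k, G ι (fun h => ι (pr s h) * u h) k * G ι (fun h => star (u h)) (-k) = 0 := by
    intro k
    rw [h2, h3]
    linear_combination (Fintype.card A : K) ^ 2 * hv k
  rw [Finset.sum_congr rfl fun k _ => h4 k, Finset.sum_const_zero] at h1
  have h5 := (mul_eq_zero.mp h1.symm).resolve_left (pow_ne_zero 2 (nat_ne (A := A) hpos))
  rw [← h5]
  exact Finset.sum_congr rfl fun h _ => by ring

end tw

section ptf

variable {ι : Bz →+* K} {x z : A → K} {a m g r : PS A → K} {I : K} {T : Finset (PS A)}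

/-- The data at a jet. -/
structure Dat (ι : Bz →+* K) (x z : A → K) (f a m g r : PS A → K) (I : K) (T : Finset (PS A)) :
    Prop where
  fns : Fns ι a m g r
  tri : Tri I a T
  xx : ∀ h, ov ι (fun r => star (x r)) x h = f h
  xz : ∀ h, ov ι (fun r => star (x r)) z h = a h * f h
  zx : ∀ h, ov ι (fun r => star (z r)) x h = - star (a h) * f h
  zz : ∀ h, ov ι (fun r => star (z r)) z h = r h * f h
  ff : ∀ h, ((Fintype.card A : K) + 1) * (f h * f (-h)) = eps A K h
  star_f : ∀ h, star (f h) = f (-h)

variable {f : PS A → K}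

/-- Value of `r`. -/
theorem Dat.r_eq (hpos : PosStar K) (hD : Dat ι x z f a m g r I T) (h : PS A) :
    r h = 1 - 2 * (ind K T h + ind K T (-h)) := by
  by_cases h0 : h = 0
  · have h1 := hD.tri.zero_notMem hpos hD.fns
    unfold ind
    rw [h0, neg_zero, if_neg h1, hD.fns.r_zero]
    ring
  · rw [← hD.fns.g_of_ne h0, hD.tri.g_eq hpos hD.fns, if_neg h0]
    ring

theorem Dat.ovC (hpos : PosStar K) (hD : Dat ι x z f a m g r I T) (h : PS A) :
    ov ι (fun r => star (x r) + I * star (z r)) (fun r => x r + I * z r) h =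
      4 * f h * ind K T h := by
  rw [ov_add_left, ov_add_right, ov_add_right, ov_smul_left, ov_smul_left, ov_smul_right,
    ov_smul_right, hD.xx, hD.xz, hD.zx, hD.zz, hD.r_eq hpos]
  have h1 := hD.tri.im hpos hD.fns h
  have h2 := hD.tri.sq
  linear_combination (I * f h) * h1 +
    (f h * (1 - 2 * (ind K T h + ind K T (-h))) - 2 * f h * (ind K T h - ind K T (-h))) * h2

theorem Dat.ovA (hpos : PosStar K) (hD : Dat ι x z f a m g r I T) (h : PS A) :
    ov ι (fun r => star (x r) + I * star (z r)) (fun r => x r + -I * z r) h =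
      if h ∈ T ∨ -h ∈ T then 0 else 2 * f h * (1 - I * a h) := by
  rw [ov_add_left, ov_add_right, ov_add_right, ov_smul_left, ov_smul_left, ov_smul_right,
    ov_smul_right, hD.xx, hD.xz, hD.zx, hD.zz, hD.r_eq hpos]
  have h2 := hD.tri.sq
  unfold ind
  rcases hD.tri.cases hpos hD.fns h with ⟨h1, h2', h3, h4⟩ | ⟨h1, h2', h3, h4⟩ | ⟨h1, h2', h3⟩
  · rw [if_pos (Or.inl h1), if_pos h1, if_neg h2', h4, h3]
    linear_combination (f h) * h2
  · rw [if_pos (Or.inr h2'), if_neg h1, if_pos h2', h4, h3]
    linear_combination (f h) * h2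
  · rw [if_neg (not_or.mpr ⟨h1, h2'⟩), if_neg h1, if_neg h2', h3]
    linear_combination (- f h) * h2

theorem Dat.ind_mul (hpos : PosStar K) (hD : Dat ι x z f a m g r I T) (h : PS A) :
    ind K T h * ind K T (-h) = 0 := by
  unfold ind
  rcases hD.tri.cases hpos hD.fns h with ⟨_, h2', _⟩ | ⟨h1, _⟩ | ⟨h1, _⟩
  · rw [if_neg h2', mul_zero]
  · rw [if_neg h1, zero_mul]
  · rw [if_neg h1, zero_mul]

theorem ind_sq (h : PS A) : ind K T h * ind K T h = ind K T h := by
  unfold ind
  split_ifs <;> ring

theorem star_ind (h : PS A) : star (ind K T h) = ind K T h := by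
  unfold ind
  split_ifs
  · rw [star_one]
  · rw [star_zero]

theorem Dat.ind_eps (hpos : PosStar K) (hD : Dat ι x z f a m g r I T) (h : PS A) :
    ind K T h * eps A K h = ind K T h := by
  unfold ind
  split_ifs with h1
  · have h0 : h ≠ 0 := fun h2 => hD.tri.zero_notMem hpos hD.fns (h2 ▸ h1)
    rw [eps_of_ne h0, one_mul]
  · rw [zero_mul]

theorem star_two : star (2 : K) = 2 := by
  have := star_natCast (R := K) 2
  exact_mod_cast this

theorem star_four : star (4 : K) = 4 := by
  have := star_natCast (R := K) 4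
  exact_mod_cast this

/-- First twisted identity. -/
theorem Dat.tw1 (hpos : PosStar K) (hD : Dat ι x z f a m g r I T) (s : PS A) :
    ∑ h, ι (pr s h) * (ind K T h * ind K T (s - h)) = 0 := by
  set e : A → K := fun r => star (x r) + I * star (z r) with he
  set e' : A → K := fun r => x r + I * z r with he'
  set u : PS A → K := fun h => ov ι e e' h * ov ι (Sh ι s e) e' (-h) with hu
  have hu1 : ∀ h, u h = (4 * f h * ind K T h) * (ph ι s h * (4 * f (s - h) * ind K T (s - h))) := by
    intro h
    simp only [hu]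
    rw [ov_Sh, hD.ovC hpos, hD.ovC hpos]
  have h1 := tw_sum hpos ι s u u (fun k => duality ι e e' (Sh ι s e) e' k) (by
    intro k
    rw [hu1, hu1]
    have h2 : s - (k + s) = -k := by abel
    rw [h2]
    simp only [star_mul', star_ind]
    have h3 := hD.ind_mul hpos k
    linear_combination (4 * f (k + s) * ind K T (k + s) * ph ι s (k + s) * 4 * f (-k) *
      (star 4 * star (f k)) * (star (ph ι s k) * (star 4 * star (f (s - k)) *
      ind K T (s - k)))) * h3)
  have h2 : ∀ h, (((Fintype.card A : K) + 1) * ((Fintype.card A : K) + 1)) *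
      (ι (pr s h) * (u h * star (u h))) =
      256 * (ι (pr s h) * (ind K T h * ind K T (s - h))) := by
    intro h
    rw [hu1]
    simp only [star_mul', star_ind, star_four, hD.star_f]
    have h3 := hD.ff h
    have h4 := hD.ff (s - h)
    have h5 := star_ph hpos ι s h
    have h6 := ind_sq (K := K) (T := T) h
    have h7 := ind_sq (K := K) (T := T) (s - h)
    have h8 := hD.ind_eps hpos h
    have h9 := hD.ind_eps hpos (s - h)
    calc (((Fintype.card A : K) + 1) * ((Fintype.card A : K) + 1)) *
      (ι (pr s h) * (4 * f h * ind K T h * (ph ι s h * (4 * f (s - h) * ind K T (s - h))) *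
        (4 * f (-h) * ind K T h * (star (ph ι s h) * (4 * f (-(s - h)) * ind K T (s - h)))))) =
        256 * (ι (pr s h) * ((((Fintype.card A : K) + 1) * (f h * f (-h))) *
          (((Fintype.card A : K) + 1) * (f (s - h) * f (-(s - h)))) *
          (star (ph ι s h) * ph ι s h) * (ind K T h * ind K T h) *
          (ind K T (s - h) * ind K T (s - h)))) := by ring
      _ = 256 * (ι (pr s h) * ((ind K T h * eps A K h) * (ind K T (s - h) * eps A K (s - h)))) := by
        rw [h3, h4, h5, h6, h7]
        ring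
      _ = _ := by rw [h8, h9]
  have h3 : (((Fintype.card A : K) + 1) * ((Fintype.card A : K) + 1)) *
      ∑ h, ι (pr s h) * (u h * star (u h)) =
      256 * ∑ h, ι (pr s h) * (ind K T h * ind K T (s - h)) := by
    rw [Finset.mul_sum, Finset.mul_sum]
    exact Finset.sum_congr rfl fun h _ => h2 h
  rw [h1, mul_zero] at h3
  have := charZero_of_pos hpos
  exact (mul_eq_zero.mp h3.symm).resolve_left (by norm_num)

theorem Dat.AA (hpos : PosStar K) (hD : Dat ι x z f a m g r I T) (h : PS A) :
    ((Fintype.card A : K) + 1) *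
      ((if h ∈ T ∨ -h ∈ T then (0 : K) else 2 * f h * (1 - I * a h)) *
        star (if h ∈ T ∨ -h ∈ T then (0 : K) else 2 * f h * (1 - I * a h))) =
      4 * (eps A K h + a h ^ 2) := by
  have h2 := hD.tri.sq
  rcases hD.tri.cases hpos hD.fns h with ⟨h1, h2', h3, h4⟩ | ⟨h1, h2', h3, h4⟩ | ⟨h1, h2', h3⟩
  · have h0 : h ≠ 0 := fun h5 => hD.tri.zero_notMem hpos hD.fns (h5 ▸ h1)
    rw [if_pos (Or.inl h1), h3, eps_of_ne h0]
    linear_combination (-4 : K) * h2
  · have h0 : h ≠ 0 := by
      intro h5
      rw [h5, neg_zero] at h2'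
      exact hD.tri.zero_notMem hpos hD.fns h2'
    rw [if_pos (Or.inr h2'), h3, eps_of_ne h0]
    linear_combination (-4 : K) * h2
  · rw [if_neg (not_or.mpr ⟨h1, h2'⟩)]
    simp only [star_mul', star_sub, star_one, star_two, hD.star_f, hD.tri.star_I, h3]
    have h5 := hD.ff h
    have h6 : eps A K h * a h = a h := by
      by_cases h7 : h = 0
      · rw [h7, hD.fns.a_zero, mul_zero]
      · rw [eps_of_ne h7, one_mul]
    linear_combination (4 * (1 - I * a h) * (1 + I * a h)) * h5 - 4 * eps A K h * a h ^ 2 * h2 +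
      4 * a h * h6

/-- Second twisted identity. -/
theorem Dat.tw2 (hpos : PosStar K) (hD : Dat ι x z f a m g r I T) (s : PS A) :
    ∑ h, ι (pr s h) * ((eps A K h + a h ^ 2) * ind K T (s - h)) = 0 := by
  set e : A → K := fun r => star (x r) + I * star (z r) with he
  set e' : A → K := fun r => x r + I * z r with he'
  set e₁ : A → K := fun r => x r + -I * z r with he₁
  set AF : PS A → K := fun h => if h ∈ T ∨ -h ∈ T then (0 : K) else 2 * f h * (1 - I * a h)
    with hAF
  set u : PS A → K := fun h => ov ι e e₁ h * ov ι (Sh ι s e) e' (-h) with hu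
  set v : PS A → K := fun h => ov ι e e' h * ov ι (Sh ι s e) e₁ (-h) with hv
  have hu1 : ∀ h, u h = AF h * (ph ι s h * (4 * f (s - h) * ind K T (s - h))) := by
    intro h
    simp only [hu]
    rw [ov_Sh, hD.ovC hpos, hD.ovA hpos]
  have hv1 : ∀ h, v h = (4 * f h * ind K T h) * (ph ι s h * AF (s - h)) := by
    intro h
    simp only [hv]
    rw [ov_Sh, hD.ovC hpos, hD.ovA hpos]
  have h1 := tw_sum hpos ι s u v (fun k => duality ι e e₁ (Sh ι s e) e' k) (by
    intro k
    rw [hv1, hv1]
    have h2 : s - (k + s) = -k := by abel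
    rw [h2]
    simp only [star_mul', star_ind]
    have h3 : AF (-k) * ind K T k = 0 := by
      simp only [hAF]
      unfold ind
      split_ifs with h4 h5
      · ring
      · ring
      · rw [neg_neg] at h4
        exact absurd (Or.inr (by assumption)) h4
      · ring
    linear_combination (4 * f (k + s) * ind K T (k + s) * ph ι s (k + s) *
      (star 4 * star (f k)) * (star (ph ι s k) * star (AF (s - k)))) * h3)
  have h2 : ∀ h, (((Fintype.card A : K) + 1) * ((Fintype.card A : K) + 1)) *
      (ι (pr s h) * (u h * star (u h))) =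
      64 * (ι (pr s h) * ((eps A K h + a h ^ 2) * ind K T (s - h))) := by
    intro h
    rw [hu1]
    simp only [star_mul', star_ind, star_four, hD.star_f]
    have h3 := hD.AA hpos h
    have h4 := hD.ff (s - h)
    have h5 := star_ph hpos ι s h
    have h7 := ind_sq (K := K) (T := T) (s - h)
    have h9 := hD.ind_eps hpos (s - h)
    calc (((Fintype.card A : K) + 1) * ((Fintype.card A : K) + 1)) *
      (ι (pr s h) * (AF h * (ph ι s h * (4 * f (s - h) * ind K T (s - h))) *
        (star (AF h) * (star (ph ι s h) * (4 * f (-(s - h)) * ind K T (s - h)))))) =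
        16 * (ι (pr s h) * ((((Fintype.card A : K) + 1) * (AF h * star (AF h))) *
          (((Fintype.card A : K) + 1) * (f (s - h) * f (-(s - h)))) *
          (star (ph ι s h) * ph ι s h) *
          (ind K T (s - h) * ind K T (s - h)))) := by ring
      _ = 64 * (ι (pr s h) * ((eps A K h + a h ^ 2) *
          (ind K T (s - h) * eps A K (s - h)))) := by
        rw [h3, h4, h5, h7]
        ring
      _ = _ := by rw [h9]
  have h3 : (((Fintype.card A : K) + 1) * ((Fintype.card A : K) + 1)) *
      ∑ h, ι (pr s h) * (u h * star (u h)) =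
      64 * ∑ h, ι (pr s h) * ((eps A K h + a h ^ 2) * ind K T (s - h)) := by
    rw [Finset.mul_sum, Finset.mul_sum]
    exact Finset.sum_congr rfl fun h _ => h2 h
  rw [h1, mul_zero] at h3
  have := charZero_of_pos hpos
  exact (mul_eq_zero.mp h3.symm).resolve_left (by norm_num)

/-- The pointwise relation between the functions. -/
theorem Dat.split (hpos : PosStar K) (hD : Dat ι x z f a m g r I T) (h : PS A) :
    2 * (Fintype.card A : K) * eps A K h = (Fintype.card A : K) * (eps A K h + a h ^ 2) +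
      2 * (ι (dz T h) + ι (dz T (-h))) + 2 * (Fintype.card A : K) * (ind K T h + ind K T (-h)) := by
  have h1 := hD.tri.m_eq hpos hD.fns h
  rw [hD.fns.m_def] at h1
  have hsq := hD.tri.sq
  unfold ind
  rcases hD.tri.cases hpos hD.fns h with ⟨h1', h2', h3, h4⟩ | ⟨h1', h2', h3, h4⟩ | ⟨h1', h2', h3⟩
  · have h0 : h ≠ 0 := fun h5 => hD.tri.zero_notMem hpos hD.fns (h5 ▸ h1')
    rw [if_pos h1', if_neg h2', eps_of_ne h0]
    rw [h4, h3, if_neg h0] at h1
    rw [h3]
    linear_combination (-1 : K) * h1 - 2 * (Fintype.card A : K) * hsq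
  · have h0 : h ≠ 0 := by
      intro h5
      rw [h5, neg_zero] at h2'
      exact hD.tri.zero_notMem hpos hD.fns h2'
    rw [if_neg h1', if_pos h2', eps_of_ne h0]
    rw [h4, h3, if_neg h0] at h1
    rw [h3]
    linear_combination (-1 : K) * h1 - 2 * (Fintype.card A : K) * hsq
  · rw [if_neg h1', if_neg h2']
    rw [h3] at h1
    by_cases h0 : h = 0
    · rw [if_pos h0] at h1
      have h5 : eps A K h = (Fintype.card A : K) + 1 := by rw [h0, eps_zero]
      rw [h5]
      linear_combination (-1 : K) * h1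
    · rw [if_neg h0] at h1
      rw [eps_of_ne h0]
      linear_combination (-1 : K) * h1

end ptf

section mat

open Matrix

/-- The operator attached to a function on phase space. -/
noncomputable def Mx (ι : Bz →+* K) (u : PS A → K) : Matrix (PS A) (PS A) K :=
  fun s t => ι (pr t s) * u (s - t)

theorem pr_self (h : PS A) : pr h h = 1 := by
  unfold pr
  exact ch_mul_neg _ _

theorem Mx_mul (ι : Bz →+* K) (u v : PS A → K) :
    Mx ι u * Mx ι v = Mx ι (fun s => ∑ h, ι (pr s h) * (u h * v (s - h))) := by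
  ext s r
  rw [Matrix.mul_apply]
  unfold Mx
  rw [Finset.mul_sum, ← Equiv.sum_comp (Equiv.subLeft s)]
  apply Finset.sum_congr rfl
  intro h _
  simp only [Equiv.subLeft_apply]
  have e1 : s - (s - h) = h := by abel
  have e2 : s - h - r = s - r - h := by abel
  have e3 : ι (pr (s - h) s) * ι (pr r (s - h)) = ι (pr r s) * ι (pr (s - r) h) := by
    rw [← map_mul, ← map_mul]
    congr 1
    rw [sub_eq_add_neg s h, pr_add_left, pr_add_right, pr_self, pr_neg_left, pr_neg_right,
      sub_eq_add_neg s r, pr_add_left, pr_neg_left]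
    ring
  rw [e1, e2]
  linear_combination (u h * v (s - r - h)) * e3

theorem Mx_conjTranspose (hpos : PosStar K) (ι : Bz →+* K) (u : PS A → K) :
    (Mx ι u)ᴴ = Mx ι (fun h => star (u (-h))) := by
  ext s t
  rw [Matrix.conjTranspose_apply]
  unfold Mx
  beta_reduce
  rw [star_mul', star_pr hpos, neg_sub, pr_neg_left]

theorem Mx_add (ι : Bz →+* K) (u v : PS A → K) :
    Mx ι (fun h => u h + v h) = Mx ι u + Mx ι v := by
  ext s t
  rw [Matrix.add_apply]
  unfold Mx
  ring

theorem Mx_smul (ι : Bz →+* K) (c : K) (u : PS A → K) :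
    Mx ι (fun h => c * u h) = c • Mx ι u := by
  ext s t
  rw [Matrix.smul_apply, smul_eq_mul]
  unfold Mx
  ring

theorem Mx_delta (ι : Bz →+* K) :
    Mx ι (fun h : PS A => if h = 0 then (1 : K) else 0) = 1 := by
  ext s t
  unfold Mx
  beta_reduce
  rw [Matrix.one_apply]
  by_cases h : s = t
  · rw [if_pos h, h, sub_self, if_pos rfl, pr_self, map_one, one_mul]
  · rw [if_neg h, if_neg (sub_ne_zero.mpr h), mul_zero]

theorem Mx_mul_one (ι : Bz →+* K) (u : PS A → K) :
    Mx ι u * Mx ι (fun _ => (1 : K)) = Mx ι (G ι u) := by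
  rw [Mx_mul]
  congr 1
  funext s
  unfold G
  exact Finset.sum_congr rfl fun h _ => by rw [mul_one]

theorem Mx_one_mul (ι : Bz →+* K) (u : PS A → K) :
    Mx ι (fun _ => (1 : K)) * Mx ι u = Mx ι (fun s => G ι u (-s)) := by
  rw [Mx_mul]
  congr 1
  funext s
  unfold G
  rw [← Equiv.sum_comp (Equiv.subLeft s)]
  apply Finset.sum_congr rfl
  intro h _
  simp only [Equiv.subLeft_apply]
  have e1 : s - (s - h) = h := by abel
  rw [e1, one_mul, sub_eq_add_neg, pr_add_right, pr_self, one_mul, pr_neg_right, pr_neg_left]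

theorem Mx_inj (ι : Bz →+* K) {u v : PS A → K} (h : Mx ι u = Mx ι v) : u = v := by
  funext s
  have h1 := congrFun (congrFun h s) 0
  unfold Mx at h1
  rw [sub_zero, pr_zero_left, map_one, one_mul, one_mul] at h1
  exact h1

theorem eq_zero_of_mul_conj (hpos : PosStar K) (M : Matrix (PS A) (PS A) K)
    (h : M * Mᴴ = 0) : M = 0 := by
  ext s t
  have h1 := congrFun (congrFun h s) s
  rw [Matrix.mul_apply] at h1
  have h2 : ∑ j, star (M s j) * M s j = 0 := by
    rw [← h1.trans (Matrix.zero_apply s s)]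
    exact Finset.sum_congr rfl fun j _ => by rw [Matrix.conjTranspose_apply, mul_comm]
  have h3 := hpos (PS A) Finset.univ (fun j => M s j) h2 t (Finset.mem_univ _)
  rw [Matrix.zero_apply]
  exact h3

variable {ι : Bz →+* K} {x z : A → K} {a m g r f : PS A → K} {I : K} {T : Finset (PS A)}

theorem Dat.conj_ind (hpos : PosStar K) :
    (Mx ι (ind K T))ᴴ = Mx ι (fun h => ind K T (-h)) := by
  rw [Mx_conjTranspose hpos]
  congr 1
  funext h
  rw [star_ind]

/-- The partial isometry relation. -/
theorem Dat.iso (hpos : PosStar K) (hD : Dat ι x z f a m g r I T) :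
    Mx ι (ind K T) * Mx ι (fun h => ind K T (-h)) =
      Mx ι (ind K T) * Mx ι (fun _ : PS A => (1 : K)) := by
  set N : K := (Fintype.card A : K) with hN
  have hN0 : N ≠ 0 := nat_ne hpos
  set X : Matrix (PS A) (PS A) K := Mx ι (ind K T) with hX
  set Y : Matrix (PS A) (PS A) K := Mx ι (fun h => ind K T (-h)) with hY
  set J : Matrix (PS A) (PS A) K := Mx ι (fun _ : PS A => (1 : K)) with hJ
  set V : Matrix (PS A) (PS A) K := Mx ι (fun h => eps A K h + a h ^ 2) with hV
  have hXY : Xᴴ = Y := Dat.conj_ind hpos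
  have hYX : Yᴴ = X := by rw [← hXY, Matrix.conjTranspose_conjTranspose]
  have hXX : X * X = 0 := by
    rw [hX, Mx_mul]
    have h1 : (fun s => ∑ h, ι (pr s h) * (ind K T h * ind K T (s - h))) = fun _ => (0 : K) := by
      funext s
      exact hD.tw1 hpos s
    rw [h1]
    ext s t
    unfold Mx
    rw [mul_zero, Matrix.zero_apply]
  have hYY : Y * Y = 0 := by
    rw [← hXY, ← Matrix.conjTranspose_mul, hXX, Matrix.conjTranspose_zero]
  have hVX : V * X = 0 := by
    rw [hX, hV, Mx_mul]
    have h1 : (fun s => ∑ h, ι (pr s h) * ((eps A K h + a h ^ 2) * ind K T (s - h))) =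
        fun _ => (0 : K) := by
      funext s
      exact hD.tw2 hpos s
    rw [h1]
    ext s t
    unfold Mx
    rw [mul_zero, Matrix.zero_apply]
  have hJJ : J * J = (N ^ 2) • (1 : Matrix (PS A) (PS A) K) := by
    rw [hJ, Mx_mul_one, ← Mx_delta ι, ← Mx_smul]
    congr 1
    funext s
    rw [G_one]
    split_ifs <;> ring
  have hXJ : X * J = Mx ι (fun k => ι (dz T k)) := by
    rw [hX, hJ, Mx_mul_one]
    congr 1
    funext k
    exact G_ind ι T k
  have hJX : J * X = Mx ι (fun k => ι (dz T (-k))) := by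
    rw [hX, hJ, Mx_one_mul]
    congr 1
    funext k
    exact G_ind ι T (-k)
  have hJXJ : J * X * J = (N ^ 2) • Y := by
    rw [hJX, hJ, Mx_mul_one, hY, ← Mx_smul]
    congr 1
    funext k
    have h1 : (fun k => ι (dz T (-k))) = fun k => G ι (ind K T) (-k) := by
      funext k
      exact (G_ind ι T (-k)).symm
    rw [h1, G_neg_arg ι (G ι (ind K T)), G_G]
  have hJXY : J * X = Y * J := by
    have h1 : (N ^ 2) • (J * X) = (N ^ 2) • (Y * J) := by
      calc (N ^ 2) • (J * X) = J * X * ((N ^ 2) • (1 : Matrix (PS A) (PS A) K)) := by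
            rw [Matrix.mul_smul, mul_one]
        _ = J * X * J * J := by rw [← hJJ, ← mul_assoc]
        _ = (N ^ 2) • (Y * J) := by rw [hJXJ, Matrix.smul_mul]
    exact smul_right_injective _ (pow_ne_zero 2 hN0) h1
  have hE : (2 * N) • (J + N • (1 : Matrix (PS A) (PS A) K)) =
      N • V + (2 : K) • (X * J + J * X) + (2 * N) • (X + Y) := by
    have h1 : Mx ι (fun h : PS A => 2 * N * eps A K h) =
        (2 * N) • (J + N • (1 : Matrix (PS A) (PS A) K)) := by
      rw [hJ, ← Mx_delta ι, ← Mx_smul ι N, ← Mx_add, ← Mx_smul]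
      congr 1
      funext h
      unfold eps
      split_ifs <;> ring
    have h2 : Mx ι (fun h : PS A => 2 * N * eps A K h) =
        Mx ι (fun h => N * (eps A K h + a h ^ 2) + 2 * (ι (dz T h) + ι (dz T (-h))) +
          2 * N * (ind K T h + ind K T (-h))) := by
      congr 1
      funext h
      exact hD.split hpos h
    rw [← h1, h2, hXJ, hJX, hV, hX, hY, ← Mx_add ι (fun k => ι (dz T k)),
      ← Mx_add ι (ind K T), ← Mx_smul, ← Mx_smul, ← Mx_smul, ← Mx_add, ← Mx_add]
  -- times `X`
  have e1 : N • (Y * J) + (N ^ 2) • X = X * Y * J + N • (Y * X) := by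
    have h1 := congrArg (fun M => M * X) hE
    simp only [Matrix.smul_mul, Matrix.add_mul, one_mul, hVX, smul_zero, zero_add, hXX,
      mul_assoc, hJXY] at h1
    have h2 : Y * (Y * J) = 0 := by
      rw [← mul_assoc, hYY, zero_mul]
    have h3 : (2 : K) • (N • (Y * J) + (N ^ 2) • X) = (2 : K) • (X * Y * J + N • (Y * X)) := by
      rw [h2, add_zero] at h1
      rw [smul_add, smul_add, smul_smul, smul_smul, smul_smul]
      rw [smul_add, smul_smul] at h1
      have h4 : 2 * N * N = 2 * N ^ 2 := by ring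
      rw [h4] at h1
      rw [h1, mul_assoc]
    exact smul_right_injective _ (two_ne_c hpos) h3
  have e2 : X * Y * J = X * Y * X := by
    have h1 := congrArg (fun M => X * M) e1
    simp only [Matrix.mul_add, Matrix.mul_smul] at h1
    rw [hXX, smul_zero, add_zero] at h1
    have h2 : X * (X * Y * J) = 0 := by
      rw [← mul_assoc, ← mul_assoc, hXX, zero_mul, zero_mul]
    rw [h2, zero_add] at h1
    have h3 := smul_right_injective _ hN0 h1
    simp only [← mul_assoc] at h3
    exact h3
  have e3 : (N ^ 2) • (Y * X) = Y * X * Y * J := by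
    have h1 := congrArg (fun M => Y * M) e1
    simp only [Matrix.mul_add, Matrix.mul_smul] at h1
    have h2 : Y * (Y * J) = 0 := by rw [← mul_assoc, hYY, zero_mul]
    have h3 : Y * (Y * X) = 0 := by rw [← mul_assoc, hYY, zero_mul]
    rw [h2, h3, smul_zero, zero_add, add_zero] at h1
    simp only [← mul_assoc] at h1
    exact h1
  have e4 : (N ^ 2) • (X * Y) = X * Y * X * Y := by
    have h1 := congrArg (fun M => X * M * J) e3
    simp only [Matrix.mul_smul, Matrix.smul_mul] at h1
    have h2 : X * (Y * X) * J = (N ^ 2) • (X * Y) := by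
      rw [← mul_assoc, ← e2, mul_assoc (X * Y), hJJ, Matrix.mul_smul, mul_one]
    have h3 : X * (Y * X * Y * J) * J = (N ^ 2) • (X * Y * X * Y) := by
      rw [← mul_assoc, mul_assoc _ J J, hJJ, Matrix.mul_smul, mul_one]
      simp only [← mul_assoc]
    rw [h2, h3] at h1
    exact smul_right_injective _ (pow_ne_zero 2 hN0) h1
  have e5 : X * Y * X = (N ^ 2) • X := by
    rw [← sub_eq_zero]
    apply eq_zero_of_mul_conj hpos
    have h0 : star (N ^ 2) = N ^ 2 := by rw [star_pow, hN, star_natCast]
    rw [Matrix.conjTranspose_sub, Matrix.conjTranspose_mul, Matrix.conjTranspose_mul,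
      Matrix.conjTranspose_smul, hXY, hYX, h0]
    have h1 : X * Y * X * (Y * (X * Y)) = (N ^ 2) • ((N ^ 2) • (X * Y)) := by
      calc X * Y * X * (Y * (X * Y)) = (X * Y * X * Y) * (X * Y) := by
            simp only [mul_assoc]
        _ = (N ^ 2) • (X * Y * (X * Y)) := by rw [← e4, Matrix.smul_mul]
        _ = (N ^ 2) • ((N ^ 2) • (X * Y)) := by rw [← mul_assoc, ← e4]
    have h2 : X * (Y * (X * Y)) = (N ^ 2) • (X * Y) := by
      rw [e4]
      simp only [mul_assoc]
    rw [Matrix.sub_mul, Matrix.mul_sub, Matrix.mul_sub, h1, Matrix.mul_smul, ← e4,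
      Matrix.smul_mul, h2, Matrix.smul_mul, Matrix.mul_smul]
    simp
  have e6 : X * Y = X * J := by
    have h1 : (N ^ 2) • (X * Y) = (N ^ 2) • (X * J) := by
      calc (N ^ 2) • (X * Y) = X * Y * J * J := by
            rw [mul_assoc _ J J, hJJ, Matrix.mul_smul, mul_one]
        _ = (N ^ 2) • (X * J) := by rw [e2, e5, Matrix.smul_mul]
    exact smul_right_injective _ (pow_ne_zero 2 hN0) h1
  exact e6

end mat

section fin

variable {ι : Bz →+* K} {x z : A → K} {a m g r f : PS A → K} {I : K} {T : Finset (PS A)}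

/-- The first twisted identity for the set. -/
theorem Dat.nil (hpos : PosStar K) (hD : Dat ι x z f a m g r I T) (s : PS A) :
    ∑ h ∈ T.filter (fun h => s - h ∈ T), pr s h = 0 := by
  apply ι.injective
  rw [map_sum, map_zero, ← hD.tw1 hpos s, Finset.sum_filter, ← Finset.sum_subset
    (Finset.subset_univ T)]
  · apply Finset.sum_congr rfl
    intro h hh
    unfold ind
    rw [if_pos hh]
    split_ifs <;> ring
  · intro h _ hh
    unfold ind
    rw [if_neg hh]
    ring

/-- The projection identity for the set. -/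
theorem Dat.proj (hpos : PosStar K) (hD : Dat ι x z f a m g r I T) (s : PS A) :
    ∑ h ∈ T.filter (fun h => h - s ∈ T), pr h s = ∑ h ∈ T, pr h s := by
  have h1 := hD.iso hpos
  rw [Mx_mul, Mx_mul_one] at h1
  have h2 := congrFun (Mx_inj ι h1) s
  beta_reduce at h2
  rw [G_ind] at h2
  unfold dz at h2
  rw [map_sum] at h2
  have h3 := congrArg star h2
  rw [star_sum, star_sum] at h3
  simp only [star_mul', star_ind, star_pr hpos, pr_neg_left] at h3
  apply ι.injective
  rw [map_sum, map_sum, ← h3, Finset.sum_filter, ← Finset.sum_subset (Finset.subset_univ T)]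
  · apply Finset.sum_congr rfl
    intro h hh
    have e1 : -(s - h) = h - s := by abel
    unfold ind
    rw [if_pos hh, e1]
    split_ifs <;> ring
  · intro h _ hh
    unfold ind
    rw [if_neg hh]
    ring

/-- **A second order jet gives a parabolic set with the two twisted identities.** -/
theorem Jet.para (hpos : PosStar K) {ι : Bz →+* K} {x z : A → K} (hJ : Jet ι x z) :
    ∃ T : Finset (PS A), IsPara T ∧
      (∀ s, ∑ h ∈ T.filter (fun h => h - s ∈ T), pr h s = ∑ h ∈ T, pr h s) ∧
      ∀ s, ∑ h ∈ T.filter (fun h => s - h ∈ T), pr s h = 0 := by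
  classical
  -- the imaginary unit
  obtain ⟨I₀, hI₀⟩ := exists_sq (-1)
  obtain ⟨I, hI⟩ : ∃ I : K, I = ι I₀ := ⟨_, rfl⟩
  have hII : I * I = -1 := by rw [hI, ← map_mul, hI₀, map_neg, map_one]
  have hsI : star I = -I := by
    have h3 : I₀ ^ 4 = 1 := by
      have : I₀ ^ 4 = (I₀ * I₀) * (I₀ * I₀) := by ring
      rw [this, hI₀]
      ring
    have h4 := star_mul_of_pow hpos ι (by norm_num) h3
    rw [← hI] at h4
    calc star I = -(star I * (I * I)) := by rw [hII]; ring
      _ = -((star I * I) * I) := by ring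
      _ = -I := by rw [h4, one_mul]
  obtain ⟨f, hf⟩ : ∃ f : PS A → K, f = fun h => ov ι (fun r => star (x r)) x h := ⟨_, rfl⟩
  obtain ⟨a, ha⟩ : ∃ a : PS A → K, a = fun h =>
    ov ι (fun r => star (x r)) z h / ov ι (fun r => star (x r)) x h := ⟨_, rfl⟩
  obtain ⟨r, hr⟩ : ∃ r : PS A → K, r = fun h =>
    ov ι (fun r => star (z r)) z h / ov ι (fun r => star (x r)) x h := ⟨_, rfl⟩
  obtain ⟨m, hm⟩ : ∃ m : PS A → K, m = fun h => a h * star (a h) := ⟨_, rfl⟩
  obtain ⟨g, hg⟩ : ∃ g : PS A → K, g = fun h => eps A K h * r h := ⟨_, rfl⟩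
  have hF : Fns ι a m g r := Jet.fns hpos hJ a m g r (fun h => congrFun ha h)
    (fun h => congrFun hm h) (fun h => congrFun hr h) (fun h => congrFun hg h)
  have hf0 : ∀ h, ov ι (fun r => star (x r)) x h ≠ 0 := ov_ne_zero ι hpos hJ.sol
  have hT : Tri I a (Finset.univ.filter fun h => a h = -I) :=
    ⟨hII, hsI, fun h => by simp⟩
  have hD : Dat ι x z f a m g r I (Finset.univ.filter fun h => a h = -I) := by
    refine ⟨hF, hT, ?_, ?_, ?_, ?_, ?_, ?_⟩
    · intro h
      exact (congrFun hf h).symm
    · intro h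
      rw [ha, hf]
      exact (div_mul_cancel₀ _ (hf0 h)).symm
    · intro h
      rw [hf]
      exact Jet.ov_zx hpos hJ a (fun h => congrFun ha h) hF.a_neg h
    · intro h
      rw [hr, hf]
      exact (div_mul_cancel₀ _ (hf0 h)).symm
    · intro h
      rw [hf]
      exact hJ.sol.mul h
    · intro h
      rw [hf]
      beta_reduce
      rw [star_ov hpos]
      congr 1
      funext t
      exact star_star (x t)
  exact ⟨_, hT.isPara hpos hF, hD.proj hpos, hD.nil hpos⟩

end fin

end Pool.Agent.SicCi
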