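import Pool.Agent.Lib.MP_d0f9e0_co.Ab.Alg
import Pool.Agent.Lib.MP_d0f9e0_co.Ab.Four
import Pool.Agent.Lib.MP_d0f9e0_co.Ci.Jet
import Pool.Agent.Lib.MP_d0f9e0_co.Ci.PP
import Pool.Agent.Lib.MP_d0f9e0_co.S1.NoPara

/-!
# The entries of fiducial projectors are algebraic: groups without `ℤ/4 × ℤ/4`
-/

set_option autoImplicit false
set_option linter.unusedSectionVars false

namespace Pool.Agent.SicAb

open Finset

variable {A : Type} [AddCommGroup A] [Fintype A] [DecidableEq A]

theorem four_le_card_of_isPara {T : Finset (PS A)} (hT : IsPara T) (h3 : Fintype.card A ≠ 3) :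
    4 ≤ Fintype.card A := by
  have h1 := hT.card
  have h2 : 0 < Fintype.card A := Fintype.card_pos
  by_contra hcon
  have h4 : Fintype.card A = 1 ∨ Fintype.card A = 2 := by omega
  rcases h4 with h | h <;> rw [h] at h1 <;> omega

theorem algAll_of_tw (h3 : Fintype.card A ≠ 3) (htw : (tw A).card < 4) : AlgAll A := by
  intro K _ _ _ _ hpos ι x hx r s
  by_contra ht
  obtain ⟨z, hJ⟩ := SicCi.exists_jet hpos ι hx (r := r) (s := s) ht
  obtain ⟨T, hT, hP, hX⟩ := SicCi.Jet.para hpos hJ
  exact noPara_of_tw (four_le_card_of_isPara hT h3) htw ⟨T, hT, hP, hX⟩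

/-- The interface with the statement of the theorem. -/
theorem algAll_of_noEmb (h3 : Fintype.card A ≠ 3)
    (hf : ¬ ∃ f : ZMod 4 × ZMod 4 →+ A, Function.Injective f) : AlgAll A := by
  refine algAll_of_tw h3 ?_
  by_contra hcon
  exact hf (exists_emb_of_tw (not_lt.1 hcon))

end Pool.Agent.SicAb
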